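import Mathlib

set_option autoImplicit false

open MeasureTheory Set Complex Filter Topology
open scoped Real

namespace Pool.Agent.Lib.MP_8414c7_pr

theorem cexp_taylor (y : ℝ) :
    ‖cexp (y * I) - (1 + y * I - y ^ 2 / 2 - y ^ 3 / 6 * I + y ^ 4 / 24)‖ ≤ 4 * |y| ^ 5 := by
  have hn : ‖(y : ℂ) * I‖ = |y| := by simp
  rcases le_total |y| 1 with h | h
  · have := Complex.exp_bound (x := y * I) (by rwa [hn]) (n := 5) (by norm_num)
    rw [hn] at this
    have e : ∑ m ∈ Finset.range 5, ((y : ℂ) * I) ^ m / m.factorial =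
        1 + y * I - y ^ 2 / 2 - y ^ 3 / 6 * I + y ^ 4 / 24 := by
      simp only [Finset.sum_range_succ, Finset.range_zero, Finset.sum_empty, mul_pow,
        Complex.I_pow_four, Complex.I_pow_three, Complex.I_sq, Nat.factorial]
      push_cast; ring
    rw [e] at this
    refine this.trans ?_
    have : 0 ≤ |y| ^ 5 := by positivity
    norm_num [Nat.factorial]
    linarith
  · have h1 : ‖cexp (y * I)‖ = 1 := Complex.norm_exp_ofReal_mul_I y
    have p : ∀ k : ℕ, k ≤ 5 → |y| ^ k ≤ |y| ^ 5 := fun k hk => pow_le_pow_right₀ h hk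
    have h2 : ‖(1 + y * I - y ^ 2 / 2 - y ^ 3 / 6 * I + y ^ 4 / 24 : ℂ)‖ ≤
        1 + |y| + |y| ^ 2 / 2 + |y| ^ 3 / 6 + |y| ^ 4 / 24 := by
      refine (norm_add_le _ _).trans (add_le_add ((norm_sub_le _ _).trans (add_le_add
        ((norm_sub_le _ _).trans (add_le_add ((norm_add_le _ _).trans ?_) ?_)) ?_)) ?_) <;> simp
    refine (norm_sub_le _ _).trans ?_
    have p0 := p 0 (by norm_num)
    have p1 := p 1 (by norm_num)
    have p2 := p 2 (by norm_num)
    have p3 := p 3 (by norm_num)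
    have p4 := p 4 (by norm_num)
    simp only [pow_zero, pow_one] at p0 p1
    linarith

/-- the moment conditions, with `s ^ 3` the fifth absolute moment -/
structure Mom (μ : Measure ℝ) (s : ℝ) : Prop where
  int5 : Integrable (fun x : ℝ => |x| ^ 5) μ
  m1 : ∫ x, x ∂μ = 0
  m2 : ∫ x, x ^ 2 ∂μ = 1
  m3 : ∫ x, x ^ 3 ∂μ = 0
  hs : 0 ≤ s
  m5 : ∫ x, |x| ^ 5 ∂μ = s ^ 3

variable {μ : Measure ℝ} [IsProbabilityMeasure μ] {s : ℝ}

theorem Mom.int (h : Mom μ s) {k : ℕ} (hk : k ≤ 5) : Integrable (fun x : ℝ => x ^ k) μ := by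
  refine ((integrable_const (1 : ℝ)).add h.int5).mono'
    (Continuous.aestronglyMeasurable (by fun_prop)) (Eventually.of_forall fun x => ?_)
  simp only [norm_pow, Real.norm_eq_abs, Pi.add_apply]
  rcases le_total |x| 1 with hx | hx
  · have := pow_le_one₀ (n := k) (abs_nonneg x) hx
    have : 0 ≤ |x| ^ 5 := by positivity
    linarith
  · have := pow_le_pow_right₀ hx hk
    linarith

theorem Mom.one_le (h : Mom μ s) : 1 ≤ s := by
  have h1 : ∫ x, x ^ 2 ∂μ ≤ ∫ x, (3 / 5 + 2 / 5 * |x| ^ 5) ∂μ := by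
    refine integral_mono (h.int (by norm_num))
      ((integrable_const _).add (h.int5.const_mul _)) fun x => ?_
    simp only
    rw [← sq_abs]
    have := abs_nonneg x
    generalize |x| = a at *
    have e : 3 / 5 + 2 / 5 * a ^ 5 - a ^ 2 =
        (a - 1) ^ 2 * (2 * a ^ 3 + 4 * a ^ 2 + 6 * a + 3) / 5 := by ring
    have : 0 ≤ (a - 1) ^ 2 * (2 * a ^ 3 + 4 * a ^ 2 + 6 * a + 3) / 5 := by positivity
    linarith
  rw [integral_add (integrable_const _) (h.int5.const_mul _), integral_const_mul, h.m2, h.m5] at h1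
  simp only [integral_const, probReal_univ, smul_eq_mul, one_mul] at h1
  by_contra hc
  push Not at hc
  have := pow_lt_one₀ h.hs hc (n := 3) (by norm_num)
  linarith

omit [IsProbabilityMeasure μ] in
theorem Mom.b4_nonneg (_ : Mom μ s) : 0 ≤ ∫ x, x ^ 4 ∂μ :=
  integral_nonneg fun x => by positivity

theorem Mom.b4_le (h : Mom μ s) : ∫ x, x ^ 4 ∂μ ≤ 2 * s ^ 2 := by
  have hs : 0 < s := by linarith [h.one_le]
  have h1 : ∫ x, x ^ 4 ∂μ ≤ ∫ x, (s ^ 2 * x ^ 2 + s⁻¹ * |x| ^ 5) ∂μ := by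
    refine integral_mono (h.int (by norm_num))
      (((h.int (by norm_num)).const_mul _).add (h.int5.const_mul _)) fun x => ?_
    simp only
    have e4 : x ^ 4 = |x| ^ 4 := by
      rw [show (4 : ℕ) = 2 * 2 by rfl, pow_mul, pow_mul, sq_abs]
    rw [e4, ← sq_abs x]
    have := abs_nonneg x
    generalize |x| = a at *
    rcases le_total a s with h' | h'
    · have : a ^ 4 ≤ s ^ 2 * a ^ 2 := by
        have : a ^ 2 ≤ s ^ 2 := by gcongr
        nlinarith [sq_nonneg a]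
      have : 0 ≤ s⁻¹ * a ^ 5 := by positivity
      linarith
    · have : a ^ 4 ≤ s⁻¹ * a ^ 5 := by
        rw [le_inv_mul_iff₀ hs]
        have : 0 ≤ a ^ 4 := by positivity
        nlinarith
      have : 0 ≤ s ^ 2 * a ^ 2 := by positivity
      linarith
  rw [integral_add ((h.int (by norm_num)).const_mul _) (h.int5.const_mul _), integral_const_mul,
    integral_const_mul, h.m2, h.m5] at h1
  have : s⁻¹ * s ^ 3 = s ^ 2 := by field_simp
  linarith

theorem Mom.kappa_le (h : Mom μ s) : |(∫ x, x ^ 4 ∂μ) - 3| ≤ 3 * s ^ 2 := by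
  have h1 := h.one_le
  have h2 := h.b4_le
  have h3 := h.b4_nonneg
  rw [abs_le]; constructor <;> nlinarith

theorem Mom.taylor (h : Mom μ s) (u : ℝ) :
    ‖charFun μ u - ((1 - u ^ 2 / 2 + (∫ x, x ^ 4 ∂μ) * u ^ 4 / 24 : ℝ) : ℂ)‖ ≤
      4 * s ^ 3 * |u| ^ 5 := by
  have i : ∀ k : ℕ, k ≤ 5 → Integrable (fun x : ℝ => (x : ℂ) ^ k) μ := fun k hk => by
    simpa using (h.int hk).ofReal (𝕜 := ℂ)
  have c : ∀ k : ℕ, ∫ x : ℝ, (x : ℂ) ^ k ∂μ = ((∫ x, x ^ k ∂μ : ℝ) : ℂ) := fun k => by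
    rw [← integral_complex_ofReal]; simp
  have i1 : Integrable (fun x : ℝ => (u * I) * (x : ℂ) ^ 1) μ := (i 1 (by norm_num)).const_mul _
  have i2 : Integrable (fun x : ℝ => (u ^ 2 / 2 : ℂ) * (x : ℂ) ^ 2) μ :=
    (i 2 (by norm_num)).const_mul _
  have i3 : Integrable (fun x : ℝ => (u ^ 3 / 6 * I : ℂ) * (x : ℂ) ^ 3) μ :=
    (i 3 (by norm_num)).const_mul _
  have i4 : Integrable (fun x : ℝ => (u ^ 4 / 24 : ℂ) * (x : ℂ) ^ 4) μ :=
    (i 4 (by norm_num)).const_mul _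
  have i0 : Integrable (fun _ : ℝ => (1 : ℂ)) μ := integrable_const _
  have e : ((1 - u ^ 2 / 2 + (∫ x, x ^ 4 ∂μ) * u ^ 4 / 24 : ℝ) : ℂ) =
      ∫ x : ℝ, (1 + (u * I) * (x : ℂ) ^ 1 - (u ^ 2 / 2 : ℂ) * (x : ℂ) ^ 2 -
        (u ^ 3 / 6 * I : ℂ) * (x : ℂ) ^ 3 + (u ^ 4 / 24 : ℂ) * (x : ℂ) ^ 4) ∂μ := by
    rw [integral_add _ i4, integral_sub _ i3, integral_sub _ i2, integral_add i0 i1]
    · simp only [integral_const_mul, c, h.m2, h.m3]
      simp only [pow_one, h.m1]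
      simp
      ring
    · exact i0.add i1
    · exact (i0.add i1).sub i2
    · exact ((i0.add i1).sub i2).sub i3
  have ie : Integrable (fun x : ℝ => cexp (u * x * I)) μ := by
    refine (integrable_const (1 : ℝ)).mono' (Continuous.aestronglyMeasurable (by fun_prop))
      (Eventually.of_forall fun x => ?_)
    have : (u : ℂ) * x * I = ((u * x : ℝ) : ℂ) * I := by push_cast; ring
    rw [this, Complex.norm_exp_ofReal_mul_I]
  have ia : Integrable (fun x : ℝ => (1 + (u * I) * (x : ℂ) ^ 1 - (u ^ 2 / 2 : ℂ) * (x : ℂ) ^ 2 -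
        (u ^ 3 / 6 * I : ℂ) * (x : ℂ) ^ 3 + (u ^ 4 / 24 : ℂ) * (x : ℂ) ^ 4)) μ :=
    (((i0.add i1).sub i2).sub i3).add i4
  rw [e, charFun_apply_real, ← integral_sub ie ia]
  refine (norm_integral_le_of_norm_le (h.int5.const_mul (4 * |u| ^ 5))
    (Eventually.of_forall fun x => ?_)).trans ?_
  · have := cexp_taylor (u * x)
    rw [abs_mul, mul_pow |u|, ← mul_assoc] at this
    refine le_of_eq_of_le ?_ this
    congr 1
    push_cast
    ring
  · rw [integral_const_mul, h.m5]; apply le_of_eq; ring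

theorem Mom.single (h : Mom μ s) {u : ℝ} (hu : s * |u| ≤ 1 / 4) :
    ‖charFun μ u‖ ≤ Real.exp (-u ^ 2 / 4) ∧
    Real.exp (-u ^ 2 / 2 + ((∫ x, x ^ 4 ∂μ) - 3) * u ^ 4 / 24) ≤ Real.exp (-u ^ 2 / 4) ∧
    ‖charFun μ u - (Real.exp (-u ^ 2 / 2 + ((∫ x, x ^ 4 ∂μ) - 3) * u ^ 4 / 24) : ℝ)‖ ≤
      7 * s ^ 3 * |u| ^ 5 := by
  have s1 := h.one_le
  have b0 := h.b4_nonneg
  have b1 := h.b4_le
  have k1 := h.kappa_le
  have ht := h.taylor u
  set b := ∫ x, x ^ 4 ∂μ with hb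
  have e2 : u ^ 2 = |u| ^ 2 := (sq_abs u).symm
  have e4 : u ^ 4 = |u| ^ 4 := by
    rw [show (4 : ℕ) = 2 * 2 by rfl, pow_mul, pow_mul, sq_abs]
  rw [e2, e4] at ht ⊢
  have a0 := abs_nonneg u
  generalize |u| = a at *
  have a1 : a ≤ 1 / 4 := by nlinarith
  have sa0 : 0 ≤ s * a := by positivity
  have sa2 : (s * a) ^ 2 ≤ 1 / 16 := by nlinarith
  have sa3 : (s * a) ^ 3 ≤ 1 / 64 := by nlinarith
  have a2 : 0 ≤ a ^ 2 := by positivity
  have a2' : a ^ 2 ≤ 1 / 16 := by nlinarith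
  have q1 : s ^ 2 * a ^ 4 ≤ a ^ 2 / 16 := by
    have : s ^ 2 * a ^ 4 = (s * a) ^ 2 * a ^ 2 := by ring
    nlinarith
  have q2 : s ^ 3 * a ^ 5 ≤ a ^ 2 / 64 := by
    have : s ^ 3 * a ^ 5 = (s * a) ^ 3 * a ^ 2 := by ring
    nlinarith
  have a4 : 0 ≤ a ^ 4 := by positivity
  have q3 : b * a ^ 4 ≤ a ^ 2 / 8 := by nlinarith
  have q3' : 0 ≤ b * a ^ 4 := by positivity
  have q4 : |(b - 3) * a ^ 4| ≤ 3 * (a ^ 2 / 16) := by
    rw [abs_mul, abs_of_nonneg a4]; nlinarith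
  refine ⟨?_, ?_, ?_⟩
  · have h1 := norm_add_le (charFun μ u - ((1 - a ^ 2 / 2 + b * a ^ 4 / 24 : ℝ) : ℂ))
      ((1 - a ^ 2 / 2 + b * a ^ 4 / 24 : ℝ) : ℂ)
    rw [sub_add_cancel, Complex.norm_real, Real.norm_eq_abs,
      abs_of_nonneg (by linarith)] at h1
    have := Real.add_one_le_exp (-a ^ 2 / 4)
    linarith
  · apply Real.exp_le_exp.2
    have := (abs_le.1 q4).2
    linarith
  · set z := -a ^ 2 / 2 + (b - 3) * a ^ 4 / 24 with hz
    have hz1 : |z| ≤ a ^ 2 := by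
      rw [abs_le] at q4 ⊢; constructor <;> linarith [q4.1, q4.2]
    have he := Real.exp_bound (x := z) (by linarith) (n := 3) (by norm_num)
    simp only [Finset.sum_range_succ, Finset.range_zero, Finset.sum_empty, Nat.factorial] at he
    norm_num at he
    have hz3 : |z| ^ 3 ≤ s ^ 3 * a ^ 5 := by
      have h1 : |z| ^ 3 ≤ (a ^ 2) ^ 3 := by gcongr
      have h2 : 1 ≤ s ^ 3 := one_le_pow₀ s1
      have h3 : (a ^ 2) ^ 3 = a * a ^ 5 := by ring
      have h4 : 0 ≤ a ^ 5 := by positivity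
      nlinarith
    have hd : |(1 - a ^ 2 / 2 + b * a ^ 4 / 24) - (1 + z + z ^ 2 / 2)| ≤ 2 * (s ^ 3 * a ^ 5) := by
      have : (1 - a ^ 2 / 2 + b * a ^ 4 / 24) - (1 + z + z ^ 2 / 2) =
          (b - 3) * a ^ 6 / 48 - (b - 3) ^ 2 * a ^ 8 / 1152 := by rw [hz]; ring
      rw [this]
      refine (abs_sub _ _).trans ?_
      have h5 : 0 ≤ s ^ 3 * a ^ 5 := by positivity
      have r1 : |(b - 3) * a ^ 6 / 48| ≤ s ^ 3 * a ^ 5 := by
        rw [abs_div, abs_mul, abs_of_nonneg (by positivity : 0 ≤ a ^ 6)]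
        have t1 : |b - 3| * a ^ 6 ≤ 3 * s ^ 2 * a ^ 6 := by gcongr
        have t2 : s ^ 2 * a ^ 6 ≤ s ^ 3 * a ^ 5 := by
          have : s ^ 3 * a ^ 5 - s ^ 2 * a ^ 6 = s ^ 2 * a ^ 5 * (s - a) := by ring
          have : 0 ≤ s ^ 2 * a ^ 5 * (s - a) := by
            apply mul_nonneg (by positivity); linarith
          linarith
        norm_num
        linarith
      have r2 : |(b - 3) ^ 2 * a ^ 8 / 1152| ≤ s ^ 3 * a ^ 5 := by
        rw [abs_of_nonneg (by positivity), ← sq_abs (b - 3)]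
        have t1 : |b - 3| ^ 2 * a ^ 8 ≤ (3 * s ^ 2) ^ 2 * a ^ 8 := by gcongr
        have t2 : (3 * s ^ 2) ^ 2 * a ^ 8 = 9 * (s * a * a ^ 2) * (s ^ 3 * a ^ 5) := by ring
        have t3 : s * a * a ^ 2 ≤ 1 := by nlinarith
        have t4 : (s * a * a ^ 2) * (s ^ 3 * a ^ 5) ≤ 1 * (s ^ 3 * a ^ 5) :=
          mul_le_mul_of_nonneg_right t3 h5
        linarith
      linarith
    have h1 := norm_add_le (charFun μ u - ((1 - a ^ 2 / 2 + b * a ^ 4 / 24 : ℝ) : ℂ))
      (((1 - a ^ 2 / 2 + b * a ^ 4 / 24) - Real.exp z : ℝ) : ℂ)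
    rw [Complex.norm_real, Real.norm_eq_abs] at h1
    have e : charFun μ u - ((1 - a ^ 2 / 2 + b * a ^ 4 / 24 : ℝ) : ℂ) +
      (((1 - a ^ 2 / 2 + b * a ^ 4 / 24) - Real.exp z : ℝ) : ℂ) =
        charFun μ u - (Real.exp z : ℝ) := by
      rw [Complex.ofReal_sub (1 - a ^ 2 / 2 + b * a ^ 4 / 24)]; ring
    rw [e] at h1
    have h2 := abs_sub_le (1 - a ^ 2 / 2 + b * a ^ 4 / 24) (1 + z + z ^ 2 / 2) (Real.exp z)
    rw [abs_sub_comm (1 + z + z ^ 2 / 2)] at h2
    have : 0 ≤ |z| ^ 3 := by positivity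
    linarith

theorem norm_prod_sub_prod_le {ι : Type*} (S : Finset ι) (a b : ι → ℂ)
    (ha : ∀ i ∈ S, ‖a i‖ ≤ 1) (hb : ∀ i ∈ S, ‖b i‖ ≤ 1) :
    ‖∏ i ∈ S, a i - ∏ i ∈ S, b i‖ ≤ ∑ i ∈ S, ‖a i - b i‖ := by
  classical
  induction S using Finset.induction_on with
  | empty => simp
  | insert j S hj ih =>
    rw [Finset.prod_insert hj, Finset.prod_insert hj, Finset.sum_insert hj]
    have ih' := ih (fun i hi => ha i (Finset.mem_insert_of_mem hi))
      (fun i hi => hb i (Finset.mem_insert_of_mem hi))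
    have h1 : ‖∏ i ∈ S, b i‖ ≤ 1 := by
      rw [norm_prod]
      exact Finset.prod_le_one (fun i _ => norm_nonneg _)
        (fun i hi => hb i (Finset.mem_insert_of_mem hi))
    have h2 := ha j (Finset.mem_insert_self _ _)
    have e : a j * ∏ i ∈ S, a i - b j * ∏ i ∈ S, b i =
        (a j - b j) * ∏ i ∈ S, b i + a j * (∏ i ∈ S, a i - ∏ i ∈ S, b i) := by ring
    rw [e]
    refine (norm_add_le _ _).trans ?_
    rw [norm_mul, norm_mul]
    have n1 := norm_nonneg (a j - b j)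
    have n2 := norm_nonneg (∏ i ∈ S, a i - ∏ i ∈ S, b i)
    nlinarith

theorem Mom.low (h : Mom μ s) {ι : Type*} (S : Finset ι) (θ : ι → ℝ) {η t : ℝ}
    (h2 : ∑ i ∈ S, θ i ^ 2 = 1) (hη : ∀ i ∈ S, |θ i| ≤ η) (ht : s * η * |t| ≤ 1 / 4) :
    ‖∏ i ∈ S, charFun μ (θ i * t) - (Real.exp (-t ^ 2 / 2 +
        ((∫ x, x ^ 4 ∂μ) - 3) * (∑ i ∈ S, θ i ^ 4) * t ^ 4 / 24) : ℝ)‖ ≤
      14 * (s * η) ^ 3 * |t| ^ 5 * Real.exp (-t ^ 2 / 4) := by
  set κ := (∫ x, x ^ 4 ∂μ) - 3 with hκ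
  have s1 := h.one_le
  have hu : ∀ i ∈ S, s * |θ i * t| ≤ 1 / 4 := by
    intro i hi
    rw [abs_mul]
    refine le_trans ?_ ht
    rw [mul_assoc]
    gcongr
    exact hη i hi
  let c : ι → ℝ := fun i => Real.exp ((θ i * t) ^ 2 / 4)
  let a : ι → ℂ := fun i => (c i : ℂ) * charFun μ (θ i * t)
  let b : ι → ℂ := fun i => (c i : ℂ) *
    (Real.exp (-(θ i * t) ^ 2 / 2 + κ * (θ i * t) ^ 4 / 24) : ℝ)
  have hc : ∀ i, c i * Real.exp (-(θ i * t) ^ 2 / 4) = 1 := by
    intro i; simp only [c]; rw [← Real.exp_add]; ring_nf; simp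
  have hc0 : ∀ i, 0 < c i := fun i => Real.exp_pos _
  have key := norm_prod_sub_prod_le S a b (fun i hi => by
      simp only [a]
      rw [norm_mul, Complex.norm_real, Real.norm_eq_abs, abs_of_pos (hc0 i), ← hc i]
      exact mul_le_mul_of_nonneg_left (h.single (hu i hi)).1 (hc0 i).le)
    (fun i hi => by
      simp only [b]
      rw [norm_mul, Complex.norm_real, Complex.norm_real, Real.norm_eq_abs, Real.norm_eq_abs,
        abs_of_pos (hc0 i), abs_of_pos (Real.exp_pos _), ← hc i]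
      exact mul_le_mul_of_nonneg_left (h.single (hu i hi)).2.1 (hc0 i).le)
  have hsum : ∑ i ∈ S, ‖a i - b i‖ ≤ 14 * (s * η) ^ 3 * |t| ^ 5 := by
    calc ∑ i ∈ S, ‖a i - b i‖ ≤ ∑ i ∈ S, 14 * (s * η) ^ 3 * |t| ^ 5 * θ i ^ 2 := by
          refine Finset.sum_le_sum fun i hi => ?_
          simp only [a, b]
          rw [← mul_sub, norm_mul, Complex.norm_real, Real.norm_eq_abs, abs_of_pos (hc0 i)]
          have c2 : c i ≤ 2 := by
            have h1 := hu i hi
            have h0 := abs_nonneg (θ i * t)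
            have h3 : |θ i * t| ≤ 1 / 4 := by nlinarith
            have h4 : (θ i * t) ^ 2 / 4 ≤ 1 / 2 := by rw [← sq_abs]; nlinarith
            have h5 := Real.abs_exp_sub_one_le (x := (θ i * t) ^ 2 / 4)
              (by rw [abs_of_nonneg (by positivity)]; linarith)
            rw [abs_of_nonneg (by positivity : 0 ≤ (θ i * t) ^ 2 / 4)] at h5
            have := (abs_le.1 h5).2
            simp only [c]; linarith
          have h3 := (h.single (hu i hi)).2.2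
          have h4 : |θ i| ^ 3 ≤ η ^ 3 := by
            have := hη i hi
            gcongr
          calc _ ≤ 2 * (7 * s ^ 3 * |θ i * t| ^ 5) := by gcongr
            _ = 14 * s ^ 3 * |θ i| ^ 3 * |t| ^ 5 * θ i ^ 2 := by
                rw [abs_mul, ← sq_abs (θ i)]; ring
            _ ≤ 14 * s ^ 3 * η ^ 3 * |t| ^ 5 * θ i ^ 2 := by gcongr
            _ = _ := by ring
      _ = _ := by rw [← Finset.mul_sum, h2, mul_one]
  have hpc : ∏ i ∈ S, c i = Real.exp (t ^ 2 / 4) := by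
    simp only [c]
    rw [← Real.exp_sum]
    congr 1
    simp_rw [mul_pow]
    rw [← Finset.sum_div, ← Finset.sum_mul, h2, one_mul]
  have hpb : ∏ i ∈ S, Real.exp (-(θ i * t) ^ 2 / 2 + κ * (θ i * t) ^ 4 / 24) =
      Real.exp (-t ^ 2 / 2 + κ * (∑ i ∈ S, θ i ^ 4) * t ^ 4 / 24) := by
    rw [← Real.exp_sum]
    congr 1
    have : ∀ i, -(θ i * t) ^ 2 / 2 + κ * (θ i * t) ^ 4 / 24 =
        -t ^ 2 / 2 * θ i ^ 2 + κ * t ^ 4 / 24 * θ i ^ 4 := fun i => by ring
    simp_rw [this]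
    rw [Finset.sum_add_distrib, ← Finset.mul_sum, ← Finset.mul_sum, h2]; ring
  simp only [a, b] at key
  rw [Finset.prod_mul_distrib, Finset.prod_mul_distrib, ← Complex.ofReal_prod,
    ← Complex.ofReal_prod, hpc, hpb, ← mul_sub, norm_mul, Complex.norm_real, Real.norm_eq_abs,
    abs_of_pos (Real.exp_pos _)] at key
  have he : Real.exp (t ^ 2 / 4) * Real.exp (-t ^ 2 / 4) = 1 := by
    rw [← Real.exp_add]; ring_nf; simp
  have hp := Real.exp_pos (-t ^ 2 / 4)
  have k2 := mul_le_mul_of_nonneg_right (key.trans hsum) hp.le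
  rwa [mul_right_comm, he, one_mul] at k2

theorem normSq_charFun (u : ℝ) :
    ‖charFun μ u‖ ^ 2 = ∫ p : ℝ × ℝ, Real.cos (u * (p.1 - p.2)) ∂(μ.prod μ) := by
  have ic : Integrable (fun x : ℝ => Real.cos (u * x)) μ :=
    (integrable_const (1 : ℝ)).mono' (Continuous.aestronglyMeasurable (by fun_prop))
      (Eventually.of_forall fun x => Real.abs_cos_le_one _)
  have is : Integrable (fun x : ℝ => Real.sin (u * x)) μ :=
    (integrable_const (1 : ℝ)).mono' (Continuous.aestronglyMeasurable (by fun_prop))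
      (Eventually.of_forall fun x => Real.abs_sin_le_one _)
  have e : charFun μ u = ((∫ x, Real.cos (u * x) ∂μ : ℝ) : ℂ) +
      ((∫ x, Real.sin (u * x) ∂μ : ℝ) : ℂ) * I := by
    rw [charFun_apply_real, ← integral_complex_ofReal, ← integral_complex_ofReal,
      ← integral_mul_const,
      ← integral_add ic.ofReal (is.ofReal.mul_const _)]
    refine integral_congr_ae (Eventually.of_forall fun x => ?_)
    have : (u : ℂ) * x * I = ((u * x : ℝ) : ℂ) * I := by push_cast; ring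
    simp only
    rw [this, Complex.exp_mul_I]
    simp
  rw [e, Complex.sq_norm, Complex.normSq_add_mul_I]
  simp_rw [mul_sub, Real.cos_sub]
  rw [integral_add (ic.mul_prod ic) (is.mul_prod is),
    integral_prod_mul (fun x => Real.cos (u * x)) (fun x => Real.cos (u * x)),
    integral_prod_mul (fun x => Real.sin (u * x)) (fun x => Real.sin (u * x))]
  ring

theorem Mom.high (h : Mom μ s) {ι : Type*} (S : Finset ι) (θ : ι → ℝ) {t r : ℝ} (hr : 0 ≤ r)
    (hW : ∀ y : ℝ, |y| ≤ 4 * s → r * y ^ 2 ≤ ∑ i ∈ S, (1 - Real.cos (θ i * t * y))) :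
    ‖∏ i ∈ S, charFun μ (θ i * t)‖ ≤ Real.exp (-(r / 2)) := by
  have s1 := h.one_le
  have s0 : 0 < s := by linarith
  have ic : ∀ u : ℝ, Integrable (fun p : ℝ × ℝ => 1 - Real.cos (u * (p.1 - p.2))) (μ.prod μ) :=
    fun u => (integrable_const _).sub
      ((integrable_const (1 : ℝ)).mono' (Continuous.aestronglyMeasurable (by fun_prop))
        (Eventually.of_forall fun x => Real.abs_cos_le_one _))
  have e1 : ∀ u : ℝ, 1 - ‖charFun μ u‖ ^ 2 =
      ∫ p : ℝ × ℝ, (1 - Real.cos (u * (p.1 - p.2))) ∂(μ.prod μ) := by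
    intro u
    rw [normSq_charFun, integral_sub (integrable_const _)]
    · simp
    · exact (integrable_const (1 : ℝ)).mono' (Continuous.aestronglyMeasurable (by fun_prop))
        (Eventually.of_forall fun x => Real.abs_cos_le_one _)
  have i1 : Integrable (fun x : ℝ => x) μ := by simpa using h.int (k := 1) (by norm_num)
  have i2 : Integrable (fun x : ℝ => x ^ 2) μ := h.int (by norm_num)
  have j1 : Integrable (fun p : ℝ × ℝ => p.1 ^ 2) (μ.prod μ) := i2.comp_fst μ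
  have j2 : Integrable (fun p : ℝ × ℝ => p.2 ^ 2) (μ.prod μ) := i2.comp_snd μ
  have j3 : Integrable (fun p : ℝ × ℝ => p.1 * p.2) (μ.prod μ) := i1.mul_prod i1
  have j4 : Integrable (fun p : ℝ × ℝ => |p.1| ^ 5) (μ.prod μ) := h.int5.comp_fst μ
  have j5 : Integrable (fun p : ℝ × ℝ => |p.2| ^ 5) (μ.prod μ) := h.int5.comp_snd μ
  have hlow : r ≤ ∑ i ∈ S, (1 - ‖charFun μ (θ i * t)‖ ^ 2) := by
    simp_rw [e1]
    rw [← integral_finsetSum _ (fun i _ => ic _)]
    have hint : Integrable (fun p : ℝ × ℝ => r * (p.1 ^ 2 + p.2 ^ 2 - 2 * (p.1 * p.2) -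
        (2 * s ^ 3)⁻¹ * (|p.1| ^ 5 + |p.2| ^ 5))) (μ.prod μ) :=
      (((j1.add j2).sub (j3.const_mul 2)).sub ((j4.add j5).const_mul _)).const_mul r
    refine le_trans ?_ (integral_mono hint (integrable_finsetSum _ (fun i _ => ic _)) fun p => ?_)
    · have k1 : Integrable (fun p : ℝ × ℝ => p.1 ^ 2 + p.2 ^ 2) (μ.prod μ) := j1.add j2
      have k2 : Integrable (fun p : ℝ × ℝ => p.1 ^ 2 + p.2 ^ 2 - 2 * (p.1 * p.2)) (μ.prod μ) :=
        k1.sub (j3.const_mul 2)
      have k3 : Integrable (fun p : ℝ × ℝ => |p.1| ^ 5 + |p.2| ^ 5) (μ.prod μ) := j4.add j5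
      rw [integral_const_mul, integral_sub k2
        (k3.const_mul _), integral_sub k1 (j3.const_mul 2),
        integral_add j1 j2, integral_const_mul, integral_const_mul, integral_add j4 j5,
        integral_fun_fst (fun x : ℝ => x ^ 2), integral_fun_snd (fun x : ℝ => x ^ 2),
        integral_fun_fst (fun x : ℝ => |x| ^ 5), integral_fun_snd (fun x : ℝ => |x| ^ 5),
        integral_prod_mul (fun x : ℝ => x) (fun x : ℝ => x), h.m1, h.m2, h.m5]
      simp only [probReal_univ, smul_eq_mul, one_mul]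
      have : (2 * s ^ 3)⁻¹ * (s ^ 3 + s ^ 3) = 1 := by field_simp; ring
      rw [this]; linarith
    · simp only
      have n0 : 0 ≤ (2 * s ^ 3)⁻¹ * (|p.1| ^ 5 + |p.2| ^ 5) := by positivity
      by_cases hy : |p.1 - p.2| ≤ 4 * s
      · refine le_trans ?_ (hW _ hy)
        apply mul_le_mul_of_nonneg_left _ hr
        nlinarith
      · push Not at hy
        refine le_trans ?_ (Finset.sum_nonneg fun i _ => sub_nonneg.2 (Real.cos_le_one _))
        apply mul_nonpos_of_nonneg_of_nonpos hr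
        have hm : |p.1 - p.2| ≤ 2 * max |p.1| |p.2| := by
          have := abs_sub p.1 p.2
          have := le_max_left |p.1| |p.2|
          have := le_max_right |p.1| |p.2|
          linarith
        have hm5 : (max |p.1| |p.2|) ^ 5 ≤ |p.1| ^ 5 + |p.2| ^ 5 := by
          have a1 : 0 ≤ |p.1| ^ 5 := by positivity
          have a2 : 0 ≤ |p.2| ^ 5 := by positivity
          rcases le_total |p.1| |p.2| with h' | h'
          · rw [max_eq_right h']; linarith
          · rw [max_eq_left h']; linarith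
        have e : p.1 ^ 2 + p.2 ^ 2 - 2 * (p.1 * p.2) = |p.1 - p.2| ^ 2 := by rw [sq_abs]; ring
        rw [e, sub_nonpos, le_inv_mul_iff₀ (by positivity)]
        have y0 := abs_nonneg (p.1 - p.2)
        generalize |p.1 - p.2| = y at *
        generalize max |p.1| |p.2| = m at *
        have t1 : y ^ 5 ≤ (2 * m) ^ 5 := by gcongr
        have t2 : (4 * s) ^ 3 ≤ y ^ 3 := by gcongr
        have t3 : (4 * s) ^ 3 * y ^ 2 ≤ y ^ 3 * y ^ 2 := by gcongr
        nlinarith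
  have hsq : ‖∏ i ∈ S, charFun μ (θ i * t)‖ ^ 2 ≤ Real.exp (-(r / 2)) ^ 2 := by
    rw [norm_prod, ← Finset.prod_pow, ← Real.exp_nat_mul]
    calc ∏ i ∈ S, ‖charFun μ (θ i * t)‖ ^ 2
        ≤ ∏ i ∈ S, Real.exp (-(1 - ‖charFun μ (θ i * t)‖ ^ 2)) := by
          refine Finset.prod_le_prod (fun i _ => by positivity) fun i _ => ?_
          have := Real.add_one_le_exp (-(1 - ‖charFun μ (θ i * t)‖ ^ 2))
          linarith
      _ = Real.exp (-∑ i ∈ S, (1 - ‖charFun μ (θ i * t)‖ ^ 2)) := by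
          rw [← Real.exp_sum, Finset.sum_neg_distrib]
      _ ≤ _ := by
          apply Real.exp_le_exp.2
          push_cast; linarith
  exact (pow_le_pow_iff_left₀ (norm_nonneg _) (Real.exp_pos _).le (by norm_num)).1 hsq

end Pool.Agent.Lib.MP_8414c7_pr
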