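import Pool.Agent.Lib.MP_8414c7_pr.Kernel

set_option autoImplicit false

open MeasureTheory Set Complex Filter Topology
open scoped Real

namespace Pool.Agent.Lib.MP_8414c7_pr

theorem exists_tail {K : ℝ → ℂ} (hK : Integrable K) :
    ∃ h : ℝ, 0 < h ∧ ∫ y in {y : ℝ | h < |y|}, ‖K y‖ ≤ 1 / 8 := by
  have ht := tendsto_setIntegral_of_antitone (μ := volume) (f := fun y => ‖K y‖)
    (s := fun n : ℕ => {y : ℝ | (n : ℝ) + 1 < |y|})
    (fun n => measurableSet_lt (by fun_prop) (by fun_prop))
    (fun n m hnm y hy => by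
      have : (n : ℝ) ≤ m := by exact_mod_cast hnm
      simp only [mem_ofPred_eq] at hy ⊢
      linarith) ⟨0, hK.norm.integrableOn⟩
  have he : (⋂ n : ℕ, {y : ℝ | (n : ℝ) + 1 < |y|}) = ∅ := by
    ext y
    simp only [mem_iInter, mem_ofPred_eq, mem_empty_iff_false, iff_false, not_forall, not_lt]
    obtain ⟨n, hn⟩ := exists_nat_ge |y|
    exact ⟨n, by linarith⟩
  rw [he] at ht
  simp only [Measure.restrict_empty, integral_zero_measure] at ht
  obtain ⟨n, hn⟩ := (ht.eventually (gt_mem_nhds (show (0 : ℝ) < 1 / 8 by norm_num))).exists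
  exact ⟨n + 1, by positivity, hn.le⟩

theorem integrable_mul_kernel {D : ℝ → ℝ} (hD : Measurable D) {Δ : ℝ} (hΔ : ∀ z, |D z| ≤ Δ)
    {K : ℝ → ℂ} (hK : Integrable K) (x R : ℝ) :
    Integrable fun y => ((D (x - y / R) : ℝ) : ℂ) * K y := by
  refine hK.bdd_mul (c := Δ) ?_ (Eventually.of_forall fun y => ?_)
  · apply Measurable.aestronglyMeasurable
    fun_prop
  · simpa using hΔ _

theorem local_avg {D : ℝ → ℝ} (hD : Measurable D) {Δ : ℝ} (hΔ : ∀ z, |D z| ≤ Δ)
    {K : ℝ → ℂ} (hK : Integrable K) (hK1 : ∫ y, K y = 1) {h : ℝ}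
    (ht : ∫ y in {y : ℝ | h < |y|}, ‖K y‖ ≤ 1 / 8) {x R c δ : ℝ} (hc : |c| ≤ Δ) (hδ : 0 ≤ δ)
    (hl : ∀ y, |y| ≤ h → |D (x - y / R) - c| ≤ δ) :
    ‖(∫ y, ((D (x - y / R) : ℝ) : ℂ) * K y) - c‖ ≤ δ * (∫ y, ‖K y‖) + Δ / 4 := by
  have hΔ0 : 0 ≤ Δ := (abs_nonneg _).trans hc
  have hm : MeasurableSet {y : ℝ | h < |y|} := measurableSet_lt (by fun_prop) (by fun_prop)
  have e : (∫ y, ((D (x - y / R) : ℝ) : ℂ) * K y) - c =
      ∫ y, (((D (x - y / R) : ℝ) : ℂ) * K y - c * K y) := by
    rw [integral_sub (integrable_mul_kernel hD hΔ hK x R) (hK.const_mul _), integral_const_mul,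
      hK1, mul_one]
  rw [e]
  have hb : Integrable fun y => δ * ‖K y‖ +
      2 * Δ * ({y : ℝ | h < |y|}.indicator (fun y => ‖K y‖) y) :=
    (hK.norm.const_mul _).add ((hK.norm.indicator hm).const_mul _)
  refine (norm_integral_le_of_norm_le hb (Eventually.of_forall fun y => ?_)).trans ?_
  · rw [← sub_mul, norm_mul, ← Complex.ofReal_sub, Complex.norm_real, Real.norm_eq_abs]
    have h0 := norm_nonneg (K y)
    by_cases hy : |y| ≤ h
    · have : y ∉ {y : ℝ | h < |y|} := by simpa using hy
      rw [indicator_of_notMem this]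
      have := hl y hy
      nlinarith
    · have hy' : y ∈ {y : ℝ | h < |y|} := by simpa using hy
      rw [indicator_of_mem hy']
      have h1 := abs_sub (D (x - y / R)) c
      have h2 := hΔ (x - y / R)
      have : |D (x - y / R) - c| ≤ 2 * Δ := by linarith
      nlinarith [mul_nonneg hδ h0]
  · rw [integral_add (hK.norm.const_mul _) ((hK.norm.indicator hm).const_mul _),
      integral_const_mul, integral_const_mul, integral_indicator hm]
    nlinarith

theorem esseen : ∃ C : ℝ, 0 < C ∧ ∀ (ν : Measure ℝ) [IsProbabilityMeasure ν] (g : ℝ → ℝ)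
    (m B T : ℝ), Integrable g → (∀ x, |g x| ≤ m) → 0 < T → 0 ≤ B →
    (∀ u : ℝ, |u| ≤ T → ‖charFun ν u - ∫ x : ℝ, cexp (u * x * I) * g x‖ ≤ B * |u| / (1 + u ^ 2)) →
    ∀ x, |ν.real (Iic x) - ∫ s in Iic x, g s| ≤ C * (B + m / T) := by
  obtain ⟨χ, K, hχ, hχ1, hχ0, hKi, hK1, hK⟩ := exists_kernel
  obtain ⟨h, hh, ht⟩ := exists_tail hKi
  set κ := ∫ y, ‖K y‖ with hκ
  have hκ0 : 0 ≤ κ := integral_nonneg fun y => norm_nonneg _
  refine ⟨2 + 8 * π * h * κ, by positivity, ?_⟩
  intro ν _ g m B T hg hm hT hB hφ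
  have hm0 : 0 ≤ m := (abs_nonneg _).trans (hm 0)
  set R := T / (2 * π) with hR
  have hR0 : 0 < R := by positivity
  let F : ℝ → ℝ := fun z => ν.real (Iic z)
  let G : ℝ → ℝ := fun z => ∫ s in Iic z, g s
  let D : ℝ → ℝ := fun z => F z - G z
  have hFmono : Monotone F := fun a b hab => measureReal_mono (Iic_subset_Iic.2 hab)
  have hGlip : ∀ a b, a ≤ b → |G b - G a| ≤ m * (b - a) := by
    intro a b hab
    simp only [G]
    rw [intervalIntegral.integral_Iic_sub_Iic hg.integrableOn hg.integrableOn]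
    have := intervalIntegral.norm_integral_le_of_norm_le_const (a := a) (b := b) (C := m) (f := g)
      (fun x _ => hm x)
    rwa [abs_of_nonneg (by linarith)] at this
  have hGcont : Continuous G := by
    have : LipschitzWith ⟨m, hm0⟩ G := by
      refine LipschitzWith.of_dist_le_mul fun a b => ?_
      simp only [Real.dist_eq]
      rcases le_total a b with hab | hab
      · rw [abs_sub_comm, abs_sub_comm a b, abs_of_nonneg (sub_nonneg.2 hab)]
        exact hGlip a b hab
      · rw [abs_of_nonneg (sub_nonneg.2 hab)]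
        exact hGlip b a hab
    exact this.continuous
  have hDm : Measurable D := hFmono.measurable.sub hGcont.measurable
  have hGb : ∀ z, |G z| ≤ ∫ s, |g s| := by
    intro z
    refine (abs_integral_le_integral_abs).trans ?_
    exact setIntegral_le_integral hg.abs (Eventually.of_forall fun s => abs_nonneg _)
  have hbdd : BddAbove (range fun z => |D z|) := by
    refine ⟨1 + ∫ s, |g s|, ?_⟩
    rintro _ ⟨z, rfl⟩
    have h1 : |F z| ≤ 1 := by
      rw [abs_of_nonneg measureReal_nonneg]; exact measureReal_le_one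
    exact (abs_sub _ _).trans (add_le_add h1 (hGb z))
  set Δ := ⨆ z, |D z| with hΔdef
  have hΔ : ∀ z, |D z| ≤ Δ := fun z => le_ciSup hbdd z
  have hΔ0 : 0 ≤ Δ := (abs_nonneg _).trans (hΔ 0)
  let Cv : ℝ → ℂ := fun x => ∫ y, ((D (x - y / R) : ℝ) : ℂ) * K y
  have hosc : ∀ x' x, x' ≤ x → ‖Cv x - Cv x'‖ ≤ B := by
    intro x' x hx
    have hFm : Measurable F := hFmono.measurable
    have hF1 : ∀ z, |F z| ≤ 1 := fun z => by
      rw [abs_of_nonneg measureReal_nonneg]; exact measureReal_le_one
    have i1 := conv_identity hχ hKi hK ν (h := fun _ => (1 : ℂ)) (by simp) hR0 hx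
    have i2 := conv_identity hχ hKi hK volume (h := fun s => (g s : ℂ)) hg.ofReal hR0 hx
    have eF : ∀ z, ∫ s in Iic z, (1 : ℂ) ∂ν = (F z : ℂ) := by
      intro z; simp [F]
    have eG : ∀ z, ∫ s in Iic z, (g s : ℂ) = (G z : ℂ) := by
      intro z; simp only [G]; exact integral_ofReal
    simp_rw [eF] at i1
    simp_rw [eG] at i2
    have jF := fun x => integrable_mul_kernel hFm hF1 hKi x R
    have jG := fun x => integrable_mul_kernel hGcont.measurable hGb hKi x R
    have hab : R * x' ≤ R * x := mul_le_mul_of_nonneg_left hx hR0.le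
    have eφ : ∀ t : ℝ, ∫ s, cexp (((2 * π * R * t * s : ℝ) : ℂ) * I) * 1 ∂ν =
        charFun ν (T * t) := by
      intro t
      rw [charFun_apply_real]
      refine integral_congr_ae (Eventually.of_forall fun s => ?_)
      have : 2 * π * R = T := by rw [hR]; field_simp
      simp only [this, mul_one]; push_cast; rfl
    have eψ : ∀ t : ℝ, ∫ s, cexp (((2 * π * R * t * s : ℝ) : ℂ) * I) * (g s : ℂ) =
        ∫ s : ℝ, cexp (((T * t : ℝ) : ℂ) * s * I) * g s := by
      intro t
      refine integral_congr_ae (Eventually.of_forall fun s => ?_)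
      have : 2 * π * R = T := by rw [hR]; field_simp
      simp only [this]; push_cast; rfl
    simp_rw [eφ] at i1
    simp_rw [eψ] at i2
    let ψ : ℝ → ℂ := fun u => ∫ s : ℝ, cexp ((u : ℂ) * s * I) * g s
    have hψm : StronglyMeasurable ψ := by
      have hg' := hg.aestronglyMeasurable
      have : ψ = fun u : ℝ => ∫ s : ℝ, cexp ((u : ℂ) * s * I) * (hg'.mk g s : ℝ) := by
        ext u
        refine integral_congr_ae ?_
        filter_upwards [hg'.ae_eq_mk] with s hs
        rw [← hs]
      rw [this]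
      apply StronglyMeasurable.integral_prod_right
        (f := fun u s : ℝ => cexp ((u : ℂ) * s * I) * (hg'.mk g s : ℝ))
      apply Measurable.stronglyMeasurable
      have := hg'.stronglyMeasurable_mk.measurable
      unfold Function.uncurry
      fun_prop
    have hψb : ∀ u, ‖ψ u‖ ≤ ∫ s, |g s| := by
      intro u
      refine norm_integral_le_of_norm_le hg.abs (Eventually.of_forall fun s => ?_)
      rw [norm_mul]
      have : (u : ℂ) * s * I = ((u * s : ℝ) : ℂ) * I := by push_cast; ring
      rw [this, Complex.norm_exp_ofReal_mul_I]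
      simp
    have k0 : ∀ {P : ℝ → ℂ} (_ : StronglyMeasurable P) {c : ℝ} (_ : ∀ u, ‖P u‖ ≤ c),
        Integrable fun t => χ t * P (T * t) * Ech (R * x') (R * x) t := by
      intro P hP c hc
      refine Integrable.mul_bdd (c := R * x - R * x') (Integrable.mul_bdd (c := c) hχ ?_ ?_)
        (measurable_Ech _ _).aestronglyMeasurable (Eventually.of_forall fun t => norm_Ech_le' hab t)
      · exact (hP.comp_measurable (by fun_prop)).aestronglyMeasurable
      · exact Eventually.of_forall fun t => hc _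
    have k1 := k0 (stronglyMeasurable_charFun (μ := ν)) (fun u => norm_charFun_le_one u)
    have k2 := k0 hψm hψb
    have e : Cv x - Cv x' =
        ∫ t, χ t * (charFun ν (T * t) - ψ (T * t)) * Ech (R * x') (R * x) t := by
      have : ∀ t, χ t * (charFun ν (T * t) - ψ (T * t)) * Ech (R * x') (R * x) t =
          χ t * charFun ν (T * t) * Ech (R * x') (R * x) t -
            χ t * ψ (T * t) * Ech (R * x') (R * x) t := fun t => by ring
      simp_rw [this]
      rw [integral_sub k1 k2, ← i1]
      erw [← i2]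
      simp only [Cv, D]
      simp_rw [Complex.ofReal_sub, sub_mul]
      rw [integral_sub (jF _) (jG _), integral_sub (jF _) (jG _), integral_sub (jF _) (jF _),
        integral_sub (jG _) (jG _)]
      ring
    rw [e]
    have hint : Integrable fun t : ℝ => B * T / π * (1 + (T * t) ^ 2)⁻¹ :=
      (integrable_inv_one_add_sq.comp_mul_left' hT.ne').const_mul _
    refine (norm_integral_le_of_norm_le hint ?_).trans ?_
    · have : ∀ᵐ t : ℝ, t ≠ 0 := by simp [ae_iff]
      filter_upwards [this] with t ht0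
      by_cases ht1 : 1 < |t|
      · rw [hχ0 t ht1]; simp only [zero_mul, norm_zero]; positivity
      · push Not at ht1
        have hu : |T * t| ≤ T := by
          rw [abs_mul, abs_of_pos hT]; nlinarith
        have a1 := hφ _ hu
        have a2 := norm_Ech_le hab ht0
        have a3 := hχ1 t
        have hp : 0 < |t| := abs_pos.mpr ht0
        rw [norm_mul, norm_mul]
        calc ‖χ t‖ * ‖charFun ν (T * t) - ψ (T * t)‖ * ‖Ech (R * x') (R * x) t‖
            ≤ 1 * (B * |T * t| / (1 + (T * t) ^ 2)) * (1 / (π * |t|)) := by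
              gcongr
          _ = _ := by
              rw [abs_mul, abs_of_pos hT]; field_simp
    · rw [integral_const_mul,
        Measure.integral_comp_mul_left (fun x : ℝ => (1 + x ^ 2)⁻¹) T,
        integral_univ_inv_one_add_sq, abs_of_pos (inv_pos.2 hT)]
      simp only [smul_eq_mul]
      apply le_of_eq; field_simp
  have hlim : Tendsto D atBot (𝓝 0) := by
    have t1 : Tendsto (fun z : ℝ => ∫ _ in Iic z, (1 : ℝ) ∂ν) atBot (𝓝 0) :=
      tendsto_integral_Iic_zero (a := fun z => z) tendsto_id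
    have t2 : Tendsto G atBot (𝓝 0) := tendsto_integral_Iic_zero (a := fun z => z) tendsto_id
    have t3 : Tendsto F atBot (𝓝 0) := by simpa [F] using t1
    simpa using t3.sub t2
  have key : ∀ η : ℝ, 0 < η → Δ ≤ 2 * B + 4 * m * h / R * κ + η * (4 * κ) := by
    intro η hη
    have hr : 0 < h / R := by positivity
    obtain ⟨x0, hx0⟩ : ∃ x0, Δ - η < |D x0| := exists_lt_of_lt_ciSup (by linarith)
    obtain ⟨z0, hz0⟩ : ∃ z0, ∀ z ≤ z0, |D z| ≤ η := by
      have := hlim.abs.eventually (gt_mem_nhds (show |(0 : ℝ)| < η by simpa using hη))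
      rw [eventually_atBot] at this
      obtain ⟨z0, hz0⟩ := this
      exact ⟨z0, fun z hz => (hz0 z hz).le⟩
    have hy : ∀ y : ℝ, |y| ≤ h → -(h / R) ≤ y / R ∧ y / R ≤ h / R := by
      intro y hy
      rw [abs_le] at hy
      constructor
      · rw [← neg_div]; exact div_le_div_of_nonneg_right hy.1 hR0.le
      · exact div_le_div_of_nonneg_right hy.2 hR0.le
    have hfar : ∀ x', x' ≤ z0 - h / R → ‖Cv x'‖ ≤ η * κ + Δ / 4 := by
      intro x' hx'
      have := local_avg hDm hΔ hKi hK1 ht (x := x') (R := R) (c := 0) (δ := η) (by simpa) hη.le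
        (fun y hy' => by
          have := hy y hy'
          simpa using hz0 _ (by linarith))
      simpa using this
    have hnear : ∃ x c : ℝ, |c| = Δ ∧ ‖Cv x - c‖ ≤ (η + 2 * m * (h / R)) * κ + Δ / 4 := by
      rcases le_or_gt 0 (D x0) with h0 | h0
      · rw [abs_of_nonneg h0] at hx0
        refine ⟨x0 + h / R, Δ, abs_of_nonneg hΔ0, ?_⟩
        refine local_avg hDm hΔ hKi hK1 ht (abs_of_nonneg hΔ0).le (by positivity) fun y hy' => ?_
        have := hy y hy'
        have a1 := hFmono (show x0 ≤ x0 + h / R - y / R by linarith)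
        have a2 := hGlip x0 (x0 + h / R - y / R) (by linarith)
        have a3 := hΔ (x0 + h / R - y / R)
        have a4 : m * (x0 + h / R - y / R - x0) ≤ 2 * m * (h / R) := by nlinarith
        rw [abs_le] at a2 a3 ⊢
        simp only [D] at a3 hx0 ⊢
        constructor <;> nlinarith
      · rw [abs_of_neg h0] at hx0
        refine ⟨x0 - h / R, -Δ, by rw [abs_neg, abs_of_nonneg hΔ0], ?_⟩
        refine local_avg hDm hΔ hKi hK1 ht (by rw [abs_neg, abs_of_nonneg hΔ0]) (by positivity)
          fun y hy' => ?_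
        have := hy y hy'
        have a1 := hFmono (show x0 - h / R - y / R ≤ x0 by linarith)
        have a2 := hGlip (x0 - h / R - y / R) x0 (by linarith)
        have a3 := hΔ (x0 - h / R - y / R)
        have a4 : m * (x0 - (x0 - h / R - y / R)) ≤ 2 * m * (h / R) := by nlinarith
        rw [abs_le] at a2 a3 ⊢
        simp only [D] at a3 hx0 ⊢
        constructor <;> nlinarith
    obtain ⟨x, c, hc, hx⟩ := hnear
    have b1 := hfar (min x (z0 - h / R)) (min_le_right _ _)
    have b2 := hosc (min x (z0 - h / R)) x (min_le_left _ _)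
    have b3 : Δ ≤ ‖Cv x - c‖ + ‖Cv x - Cv (min x (z0 - h / R))‖ + ‖Cv (min x (z0 - h / R))‖ := by
      have : (c : ℂ) = -(Cv x - c) + (Cv x - Cv (min x (z0 - h / R))) +
          Cv (min x (z0 - h / R)) := by ring
      calc Δ = ‖(c : ℂ)‖ := by simp [hc]
        _ ≤ ‖-(Cv x - c)‖ + ‖Cv x - Cv (min x (z0 - h / R))‖ + ‖Cv (min x (z0 - h / R))‖ := by
            conv_lhs => rw [this]
            exact norm_add₃_le
        _ = _ := by rw [norm_neg]
    have : 4 * m * h / R * κ = 4 * (m * (h / R) * κ) := by ring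
    nlinarith
  have fin : Δ ≤ 2 * B + 4 * m * h / R * κ := by
    refine le_of_forall_pos_le_add fun e he => ?_
    have := key (e / (4 * κ + 1)) (by positivity)
    have h2 : e / (4 * κ + 1) * (4 * κ) ≤ e := by
      rw [div_mul_eq_mul_div, div_le_iff₀ (by positivity)]; nlinarith
    linarith
  intro x
  refine (hΔ x).trans (fin.trans ?_)
  have : 4 * m * h / R * κ = 8 * π * h * κ * (m / T) := by
    rw [hR]; field_simp; ring
  rw [this]
  have h1 : 0 ≤ m / T := by positivity
  have h2 : 0 ≤ 8 * π * h * κ := by positivity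
  nlinarith

end Pool.Agent.Lib.MP_8414c7_pr
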