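import Mathlib

set_option autoImplicit false

open MeasureTheory Set Complex Filter Topology
open scoped Real

namespace Pool.Agent.Lib.MP_8414c7_pr

theorem pow_gauss_bound (k : ℕ) :
    ∃ C : ℝ, 0 < C ∧ ∀ x : ℝ, |x| ^ k * Real.exp (-x ^ 2 / 4) ≤ C := by
  refine ⟨1 + 4 ^ k * k.factorial, by positivity, fun x => ?_⟩
  have h1 : |x| ^ k ≤ 1 + (x ^ 2) ^ k := by
    rcases le_total |x| 1 with h | h
    · have := pow_le_one₀ (n := k) (abs_nonneg x) h
      have : 0 ≤ (x ^ 2) ^ k := by positivity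
      linarith
    · have : |x| ≤ x ^ 2 := by rw [← sq_abs]; nlinarith
      have := pow_le_pow_left₀ (abs_nonneg x) this k
      linarith
  have h2 := Real.pow_div_factorial_le_exp (x ^ 2 / 4) (by positivity) k
  have h3 : Real.exp (-x ^ 2 / 4) ≤ 1 := Real.exp_le_one_iff.2 (by nlinarith [sq_nonneg x])
  have h4 : Real.exp (x ^ 2 / 4) * Real.exp (-x ^ 2 / 4) = 1 := by
    rw [← Real.exp_add]; ring_nf; simp
  have h5 : (x ^ 2) ^ k ≤ 4 ^ k * k.factorial * Real.exp (x ^ 2 / 4) := by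
    rw [div_pow, div_div, div_le_iff₀ (by positivity)] at h2
    linarith
  have h6 := Real.exp_pos (-x ^ 2 / 4)
  calc |x| ^ k * Real.exp (-x ^ 2 / 4) ≤ (1 + 4 ^ k * k.factorial * Real.exp (x ^ 2 / 4)) *
        Real.exp (-x ^ 2 / 4) := by gcongr; linarith
    _ = Real.exp (-x ^ 2 / 4) + 4 ^ k * k.factorial *
        (Real.exp (x ^ 2 / 4) * Real.exp (-x ^ 2 / 4)) := by ring
    _ ≤ _ := by rw [h4]; linarith

theorem integrable_pow_gauss (k : ℕ) :
    Integrable fun x : ℝ => x ^ k * Real.exp (-x ^ 2 / 2) := by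
  obtain ⟨C, _, hC⟩ := pow_gauss_bound k
  have hi : Integrable fun x : ℝ => C * Real.exp (-(1 / 4) * x ^ 2) :=
    (integrable_exp_neg_mul_sq (by norm_num)).const_mul _
  refine hi.mono' (Continuous.aestronglyMeasurable (by fun_prop))
    (Eventually.of_forall fun x => ?_)
  rw [norm_mul, norm_pow, Real.norm_eq_abs, Real.norm_eq_abs, abs_of_pos (Real.exp_pos _)]
  have : Real.exp (-x ^ 2 / 2) = Real.exp (-x ^ 2 / 4) * Real.exp (-(1 / 4) * x ^ 2) := by
    rw [← Real.exp_add]; congr 1; ring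
  rw [this, ← mul_assoc]
  exact mul_le_mul_of_nonneg_right (hC x) (Real.exp_pos _).le

theorem integrable_pow_cgauss (k : ℕ) (u : ℝ) :
    Integrable fun x : ℝ => (x : ℂ) ^ k * (cexp (u * x * I) * (Real.exp (-x ^ 2 / 2) : ℝ)) := by
  refine (integrable_pow_gauss k).norm.mono' (Continuous.aestronglyMeasurable (by fun_prop))
    (Eventually.of_forall fun x => ?_)
  have : (u : ℂ) * x * I = ((u * x : ℝ) : ℂ) * I := by push_cast; ring
  rw [norm_mul, norm_mul, this, Complex.norm_exp_ofReal_mul_I, one_mul, norm_mul, norm_pow,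
    norm_pow, Complex.norm_real, Complex.norm_real]

theorem integral_cgauss (u : ℝ) :
    ∫ x : ℝ, cexp (u * x * I) * (Real.exp (-x ^ 2 / 2) : ℝ) =
      ((√(2 * π) * Real.exp (-u ^ 2 / 2) : ℝ) : ℂ) := by
  have h := fourierIntegral_gaussian (b := 1 / 2) (by norm_num) (u : ℂ)
  have e1 : ∀ x : ℝ, cexp (u * x * I) * (Real.exp (-x ^ 2 / 2) : ℝ) =
      cexp (I * u * x) * cexp (-(1 / 2) * (x : ℂ) ^ 2) := by
    intro x
    push_cast
    congr 2 <;> ring
  simp_rw [e1, h]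
  push_cast
  congr 1
  · rw [Real.sqrt_eq_rpow, Complex.ofReal_cpow (by positivity)]
    push_cast
    congr 1; ring
  · congr 1; ring

theorem integral_H4_cgauss (u : ℝ) :
    ∫ x : ℝ, ((x : ℂ) ^ 4 - 6 * x ^ 2 + 3) * (cexp (u * x * I) * (Real.exp (-x ^ 2 / 2) : ℝ)) =
      ((u ^ 4 * (√(2 * π) * Real.exp (-u ^ 2 / 2)) : ℝ) : ℂ) := by
  let e : ℝ → ℂ := fun x => cexp (u * x * I) * (Real.exp (-x ^ 2 / 2) : ℝ)
  have i := fun k => integrable_pow_cgauss k u
  have i0 : Integrable e := by simpa [e] using i 0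
  have i1 : Integrable fun x : ℝ => (x : ℂ) * e x := by simpa [e] using i 1
  have he : ∀ x : ℝ, HasDerivAt e ((u * I - x) * e x) x := by
    intro x
    have : e = fun x : ℝ => cexp (u * x * I - (x : ℂ) ^ 2 / 2) := by
      ext y; simp only [e]; push_cast; rw [← Complex.exp_add]; congr 1; ring
    rw [this]
    have h1 : HasDerivAt (fun z : ℂ => cexp (u * z * I - z ^ 2 / 2))
        (cexp (u * x * I - (x : ℂ) ^ 2 / 2) * (u * I - x)) (x : ℂ) := by
      apply HasDerivAt.cexp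
      have := (((hasDerivAt_id (x : ℂ)).const_mul (u : ℂ)).mul_const I).sub
        ((hasDerivAt_pow 2 (x : ℂ)).div_const 2)
      exact this.congr_deriv (by simp)
    exact h1.comp_ofReal.congr_deriv (by ring)
  let a : ℂ := u * I
  have ha : a ^ 4 = (u : ℂ) ^ 4 := by
    simp only [a]; rw [mul_pow, Complex.I_pow_four, mul_one]
  have hP : ∀ x : ℝ, HasDerivAt
      (fun x : ℝ => (-(x : ℂ) ^ 3 - a * x ^ 2 + (3 - a ^ 2) * x + (a - a ^ 3)) * e x)
      (((x : ℂ) ^ 4 - 6 * x ^ 2 + 3) * e x - a ^ 4 * e x) x := by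
    intro x
    have h1 : HasDerivAt (fun z : ℂ => -z ^ 3 - a * z ^ 2 + (3 - a ^ 2) * z + (a - a ^ 3))
        (-(3 * (x : ℂ) ^ 2) - a * (2 * x) + (3 - a ^ 2)) (x : ℂ) := by
      have := ((((hasDerivAt_pow 3 (x : ℂ)).neg).sub ((hasDerivAt_pow 2 (x : ℂ)).const_mul a)).add
        ((hasDerivAt_id (x : ℂ)).const_mul (3 - a ^ 2))).add_const (a - a ^ 3)
      exact this.congr_deriv (by simp)
    exact (h1.comp_ofReal.mul (he x)).congr_deriv (by simp only [a]; ring)
  have j4 : Integrable fun x : ℝ => ((x : ℂ) ^ 4 - 6 * x ^ 2 + 3) * e x := by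
    have := ((i 4).sub ((i 2).const_mul 6)).add (i0.const_mul 3)
    refine this.congr (Eventually.of_forall fun x => ?_)
    simp only [e, Pi.add_apply, Pi.sub_apply]; ring
  have j3 : Integrable
      fun x : ℝ => (-(x : ℂ) ^ 3 - a * x ^ 2 + (3 - a ^ 2) * x + (a - a ^ 3)) * e x := by
    have := (((i 3).neg.sub ((i 2).const_mul a)).add (i1.const_mul (3 - a ^ 2))).add
      (i0.const_mul (a - a ^ 3))
    refine this.congr (Eventually.of_forall fun x => ?_)
    simp only [e, Pi.add_apply, Pi.sub_apply, Pi.neg_apply]; ring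
  have z := integral_eq_zero_of_hasDerivAt_of_integrable hP (j4.sub (i0.const_mul _)) j3
  rw [integral_sub j4 (i0.const_mul _), integral_const_mul, sub_eq_zero] at z
  change ∫ x : ℝ, ((x : ℂ) ^ 4 - 6 * x ^ 2 + 3) * e x = _
  rw [z, ha]
  simp only [e]
  rw [integral_cgauss]
  push_cast; ring

/-- density of the corrected normal law -/
noncomputable def dens (γ x : ℝ) : ℝ :=
  (√(2 * π))⁻¹ * ((1 + γ * (x ^ 4 - 6 * x ^ 2 + 3)) * Real.exp (-x ^ 2 / 2))

theorem integrable_H4 :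
    Integrable fun x : ℝ => (x ^ 4 - 6 * x ^ 2 + 3) * Real.exp (-x ^ 2 / 2) := by
  have := ((integrable_pow_gauss 4).sub ((integrable_pow_gauss 2).const_mul 6)).add
    ((integrable_pow_gauss 0).const_mul 3)
  refine this.congr (Eventually.of_forall fun x => ?_)
  simp only [Pi.add_apply, Pi.sub_apply]; ring

theorem integrable_gauss : Integrable fun x : ℝ => Real.exp (-x ^ 2 / 2) := by
  simpa using integrable_pow_gauss 0

theorem integrable_dens (γ : ℝ) : Integrable (dens γ) := by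
  have := (integrable_gauss.add (integrable_H4.const_mul γ)).const_mul (√(2 * π))⁻¹
  refine this.congr (Eventually.of_forall fun x => ?_)
  simp only [Pi.add_apply, dens]; ring

theorem fourier_dens (γ u : ℝ) :
    ∫ x : ℝ, cexp (u * x * I) * (dens γ x : ℝ) =
      ((Real.exp (-u ^ 2 / 2) * (1 + γ * u ^ 4) : ℝ) : ℂ) := by
  have i := fun k => integrable_pow_cgauss k u
  have i0 : Integrable fun x : ℝ => cexp (u * x * I) * (Real.exp (-x ^ 2 / 2) : ℝ) := by
    simpa using i 0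
  have j4 : Integrable fun x : ℝ => ((x : ℂ) ^ 4 - 6 * x ^ 2 + 3) *
      (cexp (u * x * I) * (Real.exp (-x ^ 2 / 2) : ℝ)) := by
    have := ((i 4).sub ((i 2).const_mul 6)).add (i0.const_mul 3)
    refine this.congr (Eventually.of_forall fun x => ?_)
    simp only [Pi.add_apply, Pi.sub_apply]; ring
  have e : ∀ x : ℝ, cexp (u * x * I) * (dens γ x : ℝ) = (((√(2 * π))⁻¹ : ℝ) : ℂ) *
      (cexp (u * x * I) * (Real.exp (-x ^ 2 / 2) : ℝ) + γ * (((x : ℂ) ^ 4 - 6 * x ^ 2 + 3) *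
      (cexp (u * x * I) * (Real.exp (-x ^ 2 / 2) : ℝ)))) := by
    intro x; simp only [dens]; push_cast; ring
  simp_rw [e]
  rw [integral_const_mul, integral_add i0 (j4.const_mul _), integral_const_mul,
    integral_H4_cgauss, integral_cgauss]
  have h : √(2 * π) ≠ 0 := by positivity
  norm_cast
  field_simp

theorem integral_Iic_dens (γ x : ℝ) :
    ∫ s in Iic x, dens γ s = 1 / √(2 * π) * (∫ t in Iic x, Real.exp (-t ^ 2 / 2)) -
      γ / √(2 * π) * (x ^ 3 - 3 * x) * Real.exp (-x ^ 2 / 2) := by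
  have hd : ∀ y : ℝ, HasDerivAt (fun y : ℝ => -(y ^ 3 - 3 * y) * Real.exp (-y ^ 2 / 2))
      ((y ^ 4 - 6 * y ^ 2 + 3) * Real.exp (-y ^ 2 / 2)) y := by
    intro y
    have h1 : HasDerivAt (fun y : ℝ => -(y ^ 3 - 3 * y)) (-(3 * y ^ 2 - 3)) y := by
      have := ((hasDerivAt_pow 3 y).sub ((hasDerivAt_id y).const_mul 3)).neg
      exact this.congr_deriv (by simp)
    have h2 : HasDerivAt (fun y : ℝ => Real.exp (-y ^ 2 / 2)) (Real.exp (-y ^ 2 / 2) * (-y)) y := by
      apply HasDerivAt.exp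
      have := ((hasDerivAt_pow 2 y).neg).div_const 2
      exact this.congr_deriv (by simp; ring)
    exact (h1.mul h2).congr_deriv (by ring)
  have j3 : Integrable fun y : ℝ => -(y ^ 3 - 3 * y) * Real.exp (-y ^ 2 / 2) := by
    have := ((integrable_pow_gauss 3).sub ((integrable_pow_gauss 1).const_mul 3)).neg
    refine this.congr (Eventually.of_forall fun x => ?_)
    simp only [Pi.neg_apply, Pi.sub_apply]; ring
  have hlim := tendsto_zero_of_hasDerivAt_of_integrableOn_Iic (a := x) (fun y _ => hd y)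
    integrable_H4.integrableOn j3.integrableOn
  have h := integral_Iic_of_hasDerivAt_of_tendsto' (a := x) (fun y _ => hd y)
    integrable_H4.integrableOn hlim
  have e : ∀ s, dens γ s = (√(2 * π))⁻¹ * (Real.exp (-s ^ 2 / 2) +
      γ * ((s ^ 4 - 6 * s ^ 2 + 3) * Real.exp (-s ^ 2 / 2))) := by
    intro s; simp only [dens]; ring
  simp_rw [e]
  rw [integral_const_mul, integral_add integrable_gauss.integrableOn
    (integrable_H4.const_mul _).integrableOn, integral_const_mul, h]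
  ring

theorem dens_bounds : ∃ C : ℝ, 0 < C ∧ ∀ γ : ℝ, (∀ x, |dens γ x| ≤ C * (1 + |γ|)) ∧
    ∀ x, |∫ s in Iic x, dens γ s| ≤ C * (1 + |γ|) := by
  obtain ⟨C4, h4, hC4⟩ := pow_gauss_bound 4
  obtain ⟨C2, h2, hC2⟩ := pow_gauss_bound 2
  have hb : ∀ γ x : ℝ, |dens γ x| ≤
      (C4 + 6 * C2 + 3) * (1 + |γ|) * Real.exp (-(1 / 4) * x ^ 2) := by
    intro γ x
    have hs : (√(2 * π))⁻¹ ≤ 1 := by
      apply inv_le_one_of_one_le₀
      rw [Real.one_le_sqrt]; nlinarith [Real.pi_gt_three]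
    have e : Real.exp (-x ^ 2 / 2) = Real.exp (-x ^ 2 / 4) * Real.exp (-(1 / 4) * x ^ 2) := by
      rw [← Real.exp_add]; congr 1; ring
    have h3 : Real.exp (-x ^ 2 / 4) ≤ 1 := Real.exp_le_one_iff.2 (by nlinarith [sq_nonneg x])
    have p1 := Real.exp_pos (-x ^ 2 / 4)
    have p2 := Real.exp_pos (-(1 / 4) * x ^ 2)
    have a4 := hC4 x
    have a2 := hC2 x
    have hH : |x ^ 4 - 6 * x ^ 2 + 3| ≤ |x| ^ 4 + 6 * |x| ^ 2 + 3 := by
      rw [sq_abs, show |x| ^ 4 = x ^ 4 by rw [show (4 : ℕ) = 2 * 2 by rfl, pow_mul, sq_abs,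
        ← pow_mul], abs_le]
      constructor <;> nlinarith [sq_nonneg x, sq_nonneg (x ^ 2)]
    have hq : |1 + γ * (x ^ 4 - 6 * x ^ 2 + 3)| * Real.exp (-x ^ 2 / 4) ≤
        (C4 + 6 * C2 + 3) * (1 + |γ|) := by
      have b1 : |1 + γ * (x ^ 4 - 6 * x ^ 2 + 3)| ≤ 1 + |γ| * (|x| ^ 4 + 6 * |x| ^ 2 + 3) := by
        refine (abs_add_le _ _).trans ?_
        rw [abs_one, abs_mul]
        gcongr
      have b2 : (|x| ^ 4 + 6 * |x| ^ 2 + 3) * Real.exp (-x ^ 2 / 4) ≤ C4 + 6 * C2 + 3 := by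
        nlinarith
      have g0 := abs_nonneg γ
      calc _ ≤ (1 + |γ| * (|x| ^ 4 + 6 * |x| ^ 2 + 3)) * Real.exp (-x ^ 2 / 4) := by gcongr
        _ = Real.exp (-x ^ 2 / 4) +
          |γ| * ((|x| ^ 4 + 6 * |x| ^ 2 + 3) * Real.exp (-x ^ 2 / 4)) := by ring
        _ ≤ 1 + |γ| * (C4 + 6 * C2 + 3) := by gcongr
        _ ≤ _ := by nlinarith
    unfold dens
    rw [abs_mul, abs_mul, abs_of_pos (Real.exp_pos _), abs_of_nonneg (by positivity), e,
      ← mul_assoc |1 + γ * (x ^ 4 - 6 * x ^ 2 + 3)|]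
    calc _ ≤ 1 * ((C4 + 6 * C2 + 3) * (1 + |γ|) * Real.exp (-(1 / 4) * x ^ 2)) := by gcongr
      _ = _ := one_mul _
  set J := ∫ x : ℝ, Real.exp (-(1 / 4) * x ^ 2) with hJ
  have hJ0 : 0 ≤ J := integral_nonneg fun x => (Real.exp_pos _).le
  refine ⟨(C4 + 6 * C2 + 3) * (1 + J), by positivity, fun γ => ⟨fun x => ?_, fun x => ?_⟩⟩
  · refine (hb γ x).trans ?_
    have h3 : Real.exp (-(1 / 4) * x ^ 2) ≤ 1 :=
      Real.exp_le_one_iff.2 (by nlinarith [sq_nonneg x])
    have : 0 ≤ (C4 + 6 * C2 + 3) * (1 + |γ|) := by positivity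
    nlinarith
  · refine abs_integral_le_integral_abs.trans ?_
    refine (setIntegral_le_integral (integrable_dens γ).abs
      (Eventually.of_forall fun s => abs_nonneg _)).trans ?_
    have hi : Integrable fun x : ℝ =>
        (C4 + 6 * C2 + 3) * (1 + |γ|) * Real.exp (-(1 / 4) * x ^ 2) :=
      (integrable_exp_neg_mul_sq (by norm_num)).const_mul _
    refine (integral_mono (integrable_dens γ).abs hi (hb γ)).trans ?_
    rw [integral_const_mul, ← hJ]
    have : 0 ≤ (C4 + 6 * C2 + 3) * (1 + |γ|) := by positivity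
    nlinarith

end Pool.Agent.Lib.MP_8414c7_pr
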