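import Pool.Agent.Lib.MP_8414c7_pr.CharFn
import Pool.Agent.Lib.MP_8414c7_pr.Gauss
import Pool.Agent.Lib.MP_8414c7_pr.Esseen

set_option autoImplicit false

open MeasureTheory Set Complex Filter Topology
open scoped Real

namespace Pool.Agent.Lib.MP_8414c7_pr

theorem abs_exp_sub_le (y : ℝ) : |Real.exp y - 1 - y| ≤ y ^ 2 * Real.exp |y| := by
  have := Complex.norm_exp_sub_sum_le_norm_mul_exp (y : ℂ) 2
  simp only [Finset.sum_range_succ, Finset.range_zero, Finset.sum_empty, Nat.factorial] at this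
  have e : cexp (y : ℂ) - (0 + (y : ℂ) ^ 0 / ((1 : ℕ) : ℂ) + (y : ℂ) ^ 1 / (((0 + 1) * 1 : ℕ) : ℂ)) =
      ((Real.exp y - 1 - y : ℝ) : ℂ) := by
    push_cast; ring
  rw [e, Complex.norm_real, Complex.norm_real, Real.norm_eq_abs, Real.norm_eq_abs, sq_abs] at this
  exact this

theorem poly_gauss (k : ℕ) : ∃ C : ℝ, 0 < C ∧ ∀ t : ℝ,
    |t| ^ (k + 1) * Real.exp (-t ^ 2 / 4) ≤ C * (|t| / (1 + t ^ 2)) := by
  obtain ⟨C1, h1, H1⟩ := pow_gauss_bound k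
  obtain ⟨C2, h2, H2⟩ := pow_gauss_bound (k + 2)
  refine ⟨C1 + C2, by positivity, fun t => ?_⟩
  rw [← mul_div_assoc, le_div_iff₀ (by positivity)]
  have a := H1 t
  have b := H2 t
  have t0 := abs_nonneg t
  calc |t| ^ (k + 1) * Real.exp (-t ^ 2 / 4) * (1 + t ^ 2)
      = (|t| ^ k * Real.exp (-t ^ 2 / 4) + |t| ^ (k + 2) * Real.exp (-t ^ 2 / 4)) * |t| := by
        rw [← sq_abs t]; ring
    _ ≤ _ := by gcongr

theorem char_bound {M L c₀ c₁ : ℝ} (hM : 1 ≤ M) (hL : 0 ≤ L) (hc₀ : 0 < c₀) (hc₁ : 0 < c₁) :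
    ∃ C : ℝ, 0 < C ∧ ∀ (μ : Measure ℝ) [IsProbabilityMeasure μ] (s : ℝ), Mom μ s →
      ∀ (S : Finset ℕ) (θ : ℕ → ℝ) (q : ℝ), 0 < q → s ≤ q → (∑ i ∈ S, θ i ^ 2 = 1) →
      (∀ i ∈ S, |θ i| ≤ M / q) → |(∑ i ∈ S, θ i ^ 4) - 3 / q ^ 2| ≤ L / q ^ 4 →
      (∀ v : ℝ, |v| ≤ c₁ * q ^ 3 →
        c₀ * min (v ^ 2) (q ^ 2) ≤ ∑ i ∈ S, (1 - Real.cos (θ i * v))) →
      ∀ t : ℝ, |t| ≤ c₁ / (4 * (s / q) ^ 3) →
        ‖∏ i ∈ S, charFun μ (θ i * t) - ((Real.exp (-t ^ 2 / 2) *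
          (1 + ((∫ x, x ^ 4 ∂μ) - 3) / (8 * q ^ 2) * t ^ 4) : ℝ) : ℂ)‖ ≤
          C * (s / q) ^ 3 * |t| / (1 + t ^ 2) := by
  obtain ⟨C3, p3, H3⟩ := poly_gauss 3
  obtain ⟨C4, p4, H4⟩ := poly_gauss 4
  obtain ⟨C6, p6, H6⟩ := poly_gauss 6
  obtain ⟨C2, p2, H2⟩ := poly_gauss 2
  set c₂ := c₀ / (32 * M ^ 2) with hc₂
  have hc₂0 : 0 < c₂ := by positivity
  refine ⟨14 * M ^ 3 * C4 + M ^ 3 * C6 + L * C3 + 6 / c₂ ^ 3 * (4 * M + c₁) +
    64 * M ^ 3 * (C2 + C6), by positivity, ?_⟩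
  intro μ _ s h S θ q hq hsq h2 hθ h4 hW t ht
  have s1 := h.one_le
  have k1 := h.kappa_le
  set κ := (∫ x, x ^ 4 ∂μ) - 3 with hκ
  set δ := s / q with hδ
  have δ0 : 0 < δ := by positivity
  have δ1 : δ ≤ 1 := by rw [hδ, div_le_one hq]; exact hsq
  have q1 : 1 ≤ q := s1.trans hsq
  have t0 := abs_nonneg t
  set w := |t| / (1 + t ^ 2) with hw
  have w0 : 0 ≤ w := by positivity
  have ε0 : 0 < δ ^ 3 := by positivity
  have eg : Real.exp (-t ^ 2 / 2) ≤ Real.exp (-t ^ 2 / 4) :=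
    Real.exp_le_exp.2 (by nlinarith [sq_nonneg t])
  have e4 : t ^ 4 = |t| ^ 4 := by
    rw [show (4 : ℕ) = 2 * 2 by rfl, pow_mul, pow_mul, sq_abs]
  rw [mul_div_assoc, ← hw]
  have A1 : 0 ≤ 14 * M ^ 3 * C4 * δ ^ 3 * w := by positivity
  have A2 : 0 ≤ M ^ 3 * C6 * δ ^ 3 * w := by positivity
  have A3 : 0 ≤ L * C3 * δ ^ 3 * w := by positivity
  have A4 : 0 ≤ 6 / c₂ ^ 3 * (4 * M + c₁) * δ ^ 3 * w := by positivity
  have A5 : 0 ≤ 64 * M ^ 3 * (C2 + C6) * δ ^ 3 * w := by positivity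
  rcases le_or_gt (M * δ * |t|) (1 / 4) with hl | hl
  · have hlow := h.low S θ (η := M / q) (t := t) h2 hθ (by
      rw [show s * (M / q) = M * δ by rw [hδ]; ring]; exact hl)
    rw [show s * (M / q) = M * δ by rw [hδ]; ring, ← hκ] at hlow
    set σ := ∑ i ∈ S, θ i ^ 4 with hσ
    have σ0 : 0 ≤ σ := Finset.sum_nonneg fun i _ => by positivity
    have σ1 : σ ≤ (M / q) ^ 2 := by
      calc σ ≤ ∑ i ∈ S, (M / q) ^ 2 * θ i ^ 2 := by
            refine Finset.sum_le_sum fun i hi => ?_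
            have a := hθ i hi
            have b : θ i ^ 2 ≤ (M / q) ^ 2 := by rw [← sq_abs]; gcongr
            calc θ i ^ 4 = θ i ^ 2 * θ i ^ 2 := by ring
              _ ≤ _ := by gcongr
        _ = _ := by rw [← Finset.mul_sum, h2, mul_one]
    set y := κ * σ * t ^ 4 / 24 with hy
    have y1 : |y| ≤ (M * δ * |t|) ^ 2 * t ^ 2 := by
      rw [hy, abs_div, abs_mul, abs_mul, abs_of_nonneg σ0, abs_of_nonneg (by positivity : 0 ≤ t ^ 4)]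
      have : |κ| * σ * t ^ 4 ≤ 3 * s ^ 2 * (M / q) ^ 2 * t ^ 4 := by gcongr
      have e : 3 * s ^ 2 * (M / q) ^ 2 * t ^ 4 = 3 * ((M * δ * |t|) ^ 2 * t ^ 2) := by
        rw [mul_pow _ |t|, sq_abs, hδ]; ring
      have : 0 ≤ (M * δ * |t|) ^ 2 * t ^ 2 := by positivity
      norm_num; linarith
    have x0 : 0 ≤ M * δ * |t| := by positivity
    have y2 : |y| ≤ t ^ 2 / 4 := by
      have : (M * δ * |t|) ^ 2 ≤ 1 / 4 := by nlinarith
      nlinarith [sq_nonneg t]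
    have y3 : y ^ 2 ≤ M ^ 3 * δ ^ 3 * |t| ^ 7 := by
      have a : y ^ 2 ≤ ((M * δ * |t|) ^ 2 * t ^ 2) ^ 2 := by rw [← sq_abs y]; gcongr
      have b : ((M * δ * |t|) ^ 2 * t ^ 2) ^ 2 = (M * δ * |t|) * (M ^ 3 * δ ^ 3 * |t| ^ 7) := by
        rw [← sq_abs t]; ring
      have c : 0 ≤ M ^ 3 * δ ^ 3 * |t| ^ 7 := by positivity
      nlinarith
    have y4 : |y - κ / (8 * q ^ 2) * t ^ 4| ≤ L * δ ^ 3 * |t| ^ 4 := by
      have e : y - κ / (8 * q ^ 2) * t ^ 4 = κ * (σ - 3 / q ^ 2) * t ^ 4 / 24 := by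
        rw [hy]; field_simp; ring
      rw [e, abs_div, abs_mul, abs_mul, abs_of_nonneg (by positivity : 0 ≤ t ^ 4), e4]
      have a : |κ| * |σ - 3 / q ^ 2| * |t| ^ 4 ≤ 3 * s ^ 2 * (L / q ^ 4) * |t| ^ 4 := by gcongr
      have b : s ^ 2 * (L / q ^ 4) ≤ L * δ ^ 3 := by
        rw [hδ, div_pow, ← mul_div_assoc, ← mul_div_assoc, div_le_div_iff₀ (by positivity)
          (by positivity)]
        have : s ^ 2 * L * q ^ 3 * 1 ≤ s ^ 2 * L * q ^ 3 * (s * q) := by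
          gcongr; nlinarith
        linarith
      have c : s ^ 2 * (L / q ^ 4) * |t| ^ 4 ≤ L * δ ^ 3 * |t| ^ 4 := by gcongr
      have d : 0 ≤ L * δ ^ 3 * |t| ^ 4 := by positivity
      norm_num; linarith
    have hr : |Real.exp (-t ^ 2 / 2 + y) - Real.exp (-t ^ 2 / 2) * (1 + κ / (8 * q ^ 2) * t ^ 4)| ≤
        (M ^ 3 * δ ^ 3 * |t| ^ 7 + L * δ ^ 3 * |t| ^ 4) * Real.exp (-t ^ 2 / 4) := by
      have e : Real.exp (-t ^ 2 / 2 + y) - Real.exp (-t ^ 2 / 2) * (1 + κ / (8 * q ^ 2) * t ^ 4) =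
          Real.exp (-t ^ 2 / 2) * (Real.exp y - 1 - y) +
            Real.exp (-t ^ 2 / 2) * (y - κ / (8 * q ^ 2) * t ^ 4) := by
        rw [Real.exp_add]; ring
      rw [e, add_mul]
      refine (abs_add_le _ _).trans (add_le_add ?_ ?_)
      · rw [abs_mul, abs_of_pos (Real.exp_pos _)]
        have a := abs_exp_sub_le y
        have b : Real.exp (-t ^ 2 / 2) * Real.exp |y| ≤ Real.exp (-t ^ 2 / 4) := by
          rw [← Real.exp_add]; exact Real.exp_le_exp.2 (by linarith)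
        calc _ ≤ Real.exp (-t ^ 2 / 2) * (y ^ 2 * Real.exp |y|) := by gcongr
          _ = y ^ 2 * (Real.exp (-t ^ 2 / 2) * Real.exp |y|) := by ring
          _ ≤ _ := by gcongr
      · rw [abs_mul, abs_of_pos (Real.exp_pos _), mul_comm]
        gcongr
    have tri := norm_add_le (∏ i ∈ S, charFun μ (θ i * t) - (Real.exp (-t ^ 2 / 2 + y) : ℝ))
      ((Real.exp (-t ^ 2 / 2 + y) -
        Real.exp (-t ^ 2 / 2) * (1 + κ / (8 * q ^ 2) * t ^ 4) : ℝ) : ℂ)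
    rw [Complex.norm_real, Real.norm_eq_abs, Complex.ofReal_sub, sub_add_sub_cancel] at tri
    have b4 : 14 * (M * δ) ^ 3 * |t| ^ 5 * Real.exp (-t ^ 2 / 4) ≤
        14 * M ^ 3 * C4 * δ ^ 3 * w := by
      have := H4 t
      calc _ = 14 * (M * δ) ^ 3 * (|t| ^ (4 + 1) * Real.exp (-t ^ 2 / 4)) := by ring
        _ ≤ 14 * (M * δ) ^ 3 * (C4 * w) := by gcongr
        _ = _ := by ring
    have b6 : M ^ 3 * δ ^ 3 * |t| ^ 7 * Real.exp (-t ^ 2 / 4) ≤ M ^ 3 * C6 * δ ^ 3 * w := by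
      have := H6 t
      calc _ = M ^ 3 * δ ^ 3 * (|t| ^ (6 + 1) * Real.exp (-t ^ 2 / 4)) := by ring
        _ ≤ M ^ 3 * δ ^ 3 * (C6 * w) := by gcongr
        _ = _ := by ring
    have b3 : L * δ ^ 3 * |t| ^ 4 * Real.exp (-t ^ 2 / 4) ≤ L * C3 * δ ^ 3 * w := by
      have := H3 t
      calc _ = L * δ ^ 3 * (|t| ^ (3 + 1) * Real.exp (-t ^ 2 / 4)) := by ring
        _ ≤ L * δ ^ 3 * (C3 * w) := by gcongr
        _ = _ := by ring
    rw [add_mul] at hr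
    linarith
  · have tpos : 0 < |t| := by
      by_contra hc
      have : |t| = 0 := le_antisymm (not_lt.1 hc) t0
      rw [this] at hl; linarith
    have hhigh := h.high S θ (t := t) (r := 2 * c₂ / δ ^ 2) (by positivity) (fun y hy => by
      have y0 := abs_nonneg y
      have a1 : |t * y| ≤ c₁ * q ^ 3 := by
        rw [abs_mul]
        calc |t| * |y| ≤ c₁ / (4 * δ ^ 3) * (4 * s) := by gcongr
          _ = c₁ * q ^ 3 / s ^ 2 := by rw [hδ]; field_simp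
          _ ≤ c₁ * q ^ 3 := div_le_self (by positivity) (one_le_pow₀ s1)
      have a2 := hW _ a1
      simp_rw [mul_assoc]
      refine le_trans ?_ a2
      have e : 2 * c₂ / δ ^ 2 * y ^ 2 = c₀ * (y ^ 2 / (16 * M ^ 2 * δ ^ 2)) := by
        rw [hc₂]; field_simp; ring
      rw [e]
      apply mul_le_mul_of_nonneg_left _ hc₀.le
      rw [div_le_iff₀ (by positivity)]
      rcases min_choice ((t * y) ^ 2) (q ^ 2) with hm | hm <;> rw [hm]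
      · have b1 : 1 ≤ (4 * (M * δ * |t|)) ^ 2 := one_le_pow₀ (by linarith)
        have b2 : (t * y) ^ 2 * (16 * M ^ 2 * δ ^ 2) = (4 * (M * δ * |t|)) ^ 2 * y ^ 2 := by
          rw [mul_pow 4, mul_pow _ |t|, sq_abs]; ring
        nlinarith [sq_nonneg y]
      · have b1 : y ^ 2 ≤ (4 * s) ^ 2 := by rw [← sq_abs y]; gcongr
        have b2 : q ^ 2 * (16 * M ^ 2 * δ ^ 2) = (4 * s) ^ 2 * M ^ 2 := by
          rw [hδ]; field_simp; ring
        have b3 : 1 ≤ M ^ 2 := one_le_pow₀ hM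
        have b4 : 0 ≤ (4 * s) ^ 2 := by positivity
        nlinarith)
    have g1 : Real.exp (-(2 * c₂ / δ ^ 2 / 2)) ≤ 6 / c₂ ^ 3 * δ ^ 6 := by
      have a := Real.pow_div_factorial_le_exp (c₂ / δ ^ 2) (by positivity) 3
      rw [show 2 * c₂ / δ ^ 2 / 2 = c₂ / δ ^ 2 by ring, Real.exp_neg,
        inv_le_comm₀ (Real.exp_pos _) (by positivity)]
      refine le_trans (le_of_eq ?_) a
      simp only [Nat.factorial]; field_simp; norm_num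
    have g2 : δ ^ 3 ≤ (4 * M + c₁) * w := by
      rw [hw, ← mul_div_assoc, le_div_iff₀ (by positivity)]
      have a1 : δ ^ 3 ≤ 4 * M * |t| := by
        have : δ ^ 3 ≤ 1 := pow_le_one₀ δ0.le δ1
        have : M * δ * |t| ≤ M * 1 * |t| := by gcongr
        linarith
      have a2 : δ ^ 3 * t ^ 2 ≤ c₁ * |t| := by
        rw [le_div_iff₀ (by positivity)] at ht
        rw [← sq_abs]
        nlinarith
      linarith
    have g3 : ‖∏ i ∈ S, charFun μ (θ i * t)‖ ≤ 6 / c₂ ^ 3 * (4 * M + c₁) * δ ^ 3 * w := by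
      refine hhigh.trans (g1.trans ?_)
      calc 6 / c₂ ^ 3 * δ ^ 6 = 6 / c₂ ^ 3 * δ ^ 3 * δ ^ 3 := by ring
        _ ≤ 6 / c₂ ^ 3 * δ ^ 3 * ((4 * M + c₁) * w) := by gcongr
        _ = _ := by ring
    have g4 : |Real.exp (-t ^ 2 / 2) * (1 + κ / (8 * q ^ 2) * t ^ 4)| ≤
        64 * M ^ 3 * (C2 + C6) * δ ^ 3 * w := by
      have a1 : |κ / (8 * q ^ 2)| ≤ 1 := by
        rw [abs_div, abs_of_pos (by positivity : 0 < 8 * q ^ 2), div_le_one (by positivity)]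
        have : s ^ 2 ≤ q ^ 2 := by gcongr
        nlinarith
      have a2 : |1 + κ / (8 * q ^ 2) * t ^ 4| ≤ 1 + |t| ^ 4 := by
        refine (abs_add_le _ _).trans ?_
        rw [abs_one, abs_mul, abs_pow]
        have : 0 ≤ |t| ^ 4 := by positivity
        nlinarith
      have a3 : 1 ≤ (4 * (M * δ * |t|)) ^ 3 := one_le_pow₀ (by linarith)
      have b2 := H2 t
      have b6 := H6 t
      rw [abs_mul, abs_of_pos (Real.exp_pos _)]
      calc _ ≤ Real.exp (-t ^ 2 / 4) * (1 + |t| ^ 4) := by gcongr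
        _ ≤ (4 * (M * δ * |t|)) ^ 3 * (Real.exp (-t ^ 2 / 4) * (1 + |t| ^ 4)) :=
            le_mul_of_one_le_left (by positivity) a3
        _ = 64 * M ^ 3 * δ ^ 3 * (|t| ^ (2 + 1) * Real.exp (-t ^ 2 / 4) +
            |t| ^ (6 + 1) * Real.exp (-t ^ 2 / 4)) := by ring
        _ ≤ 64 * M ^ 3 * δ ^ 3 * (C2 * w + C6 * w) := by gcongr
        _ = _ := by ring
    have tri := norm_sub_le (∏ i ∈ S, charFun μ (θ i * t))
      ((Real.exp (-t ^ 2 / 2) * (1 + κ / (8 * q ^ 2) * t ^ 4) : ℝ) : ℂ)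
    rw [Complex.norm_real, Real.norm_eq_abs] at tri
    linarith

theorem cdf_bound {M L c₀ c₁ δ₀ : ℝ} (hM : 1 ≤ M) (hL : 0 ≤ L) (hc₀ : 0 < c₀) (hc₁ : 0 < c₁)
    (hδ₀ : 0 < δ₀) (hδ₁ : δ₀ ≤ 1) :
    ∃ C : ℝ, 0 < C ∧ ∀ (μ : Measure ℝ) [IsProbabilityMeasure μ] (s : ℝ), Mom μ s →
      ∀ (S : Finset ℕ) (θ : ℕ → ℝ) (q : ℝ), 0 < q →
      (δ₀⁻¹ ≤ q → (∑ i ∈ S, θ i ^ 2 = 1) ∧
        (∀ i ∈ S, |θ i| ≤ M / q) ∧ |(∑ i ∈ S, θ i ^ 4) - 3 / q ^ 2| ≤ L / q ^ 4 ∧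
        (∀ v : ℝ, |v| ≤ c₁ * q ^ 3 →
          c₀ * min (v ^ 2) (q ^ 2) ≤ ∑ i ∈ S, (1 - Real.cos (θ i * v)))) →
      ∀ (ν : Measure ℝ) [IsProbabilityMeasure ν],
        (∀ t, charFun ν t = ∏ i ∈ S, charFun μ (θ i * t)) →
      ∀ x, |ν.real (Iic x) - ∫ y in Iic x, dens (((∫ x, x ^ 4 ∂μ) - 3) / (8 * q ^ 2)) y| ≤
        C * (s / q) ^ 3 := by
  obtain ⟨C1, p1, H1⟩ := char_bound hM hL hc₀ hc₁
  obtain ⟨C2, p2, H2⟩ := esseen
  obtain ⟨C3, p3, H3⟩ := dens_bounds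
  refine ⟨C2 * (C1 + 8 * C3 / c₁) + ((1 + C3) / δ₀ ^ 3 + C3 / δ₀), by positivity, ?_⟩
  intro μ _ s h S θ q hq hyp ν _ hν x
  have s1 := h.one_le
  have k1 := h.kappa_le
  set γ := ((∫ x, x ^ 4 ∂μ) - 3) / (8 * q ^ 2) with hγ
  have δ0 : 0 < s / q := by positivity
  have γ1 : |γ| ≤ (s / q) ^ 2 := by
    rw [hγ, abs_div, abs_of_pos (by positivity : 0 < 8 * q ^ 2), div_pow,
      div_le_div_iff₀ (by positivity) (by positivity)]
    have : 0 ≤ s ^ 2 * q ^ 2 := by positivity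
    have q2 : 0 ≤ q ^ 2 := by positivity
    nlinarith
  have B1 : 0 ≤ C2 * (C1 + 8 * C3 / c₁) * (s / q) ^ 3 := by positivity
  have B2 : 0 ≤ ((1 + C3) / δ₀ ^ 3 + C3 / δ₀) * (s / q) ^ 3 := by positivity
  rw [add_mul]
  rcases le_total (s / q) δ₀ with hc | hc
  · have hsq : s ≤ q := by
      rw [← div_le_one hq]; linarith
    obtain ⟨a1, a2, a3, a4⟩ := hyp (by
      rw [div_le_iff₀ hq] at hc
      rw [inv_le_iff_one_le_mul₀' hδ₀]; linarith)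
    have hch := H1 μ s h S θ q hq hsq a1 a2 a3 a4
    have γ2 : |γ| ≤ 1 := γ1.trans (pow_le_one₀ δ0.le (by linarith))
    have := H2 ν (dens γ) (2 * C3) (C1 * (s / q) ^ 3) (c₁ / (4 * (s / q) ^ 3)) (integrable_dens γ)
      (fun y => ((H3 γ).1 y).trans (by nlinarith)) (by positivity) (by positivity)
      (fun u hu => by rw [hν, fourier_dens]; exact hch u hu) x
    have e : C2 * (C1 * (s / q) ^ 3 + 2 * C3 / (c₁ / (4 * (s / q) ^ 3))) =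
        C2 * (C1 + 8 * C3 / c₁) * (s / q) ^ 3 := by field_simp; ring
    linarith
  · have a1 : |ν.real (Iic x)| ≤ 1 := by
      rw [abs_of_nonneg measureReal_nonneg]; exact measureReal_le_one
    have a2 := (H3 γ).2 x
    have a3 := abs_sub (ν.real (Iic x)) (∫ y in Iic x, dens γ y)
    generalize s / q = δ at *
    have b1 : 1 + C3 ≤ (1 + C3) / δ₀ ^ 3 * δ ^ 3 := by
      rw [div_mul_eq_mul_div, le_div_iff₀ (by positivity)]
      gcongr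
    have b2 : C3 * δ ^ 2 ≤ C3 / δ₀ * δ ^ 3 := by
      rw [div_mul_eq_mul_div, le_div_iff₀ (by positivity)]
      calc C3 * δ ^ 2 * δ₀ ≤ C3 * δ ^ 2 * δ := by gcongr
        _ = _ := by ring
    have b3 : C3 * |γ| ≤ C3 * δ ^ 2 := by gcongr
    rw [add_mul]
    linarith

end Pool.Agent.Lib.MP_8414c7_pr
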