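import Mathlib

set_option autoImplicit false

open MeasureTheory Set Complex Filter Topology
open scoped Real FourierTransform ContDiff

namespace Pool.Agent.Lib.MP_8414c7_pr

theorem exists_kernel : ∃ χ K : ℝ → ℂ, Integrable χ ∧ (∀ t, ‖χ t‖ ≤ 1) ∧
    (∀ t, 1 < |t| → χ t = 0) ∧ Integrable K ∧ (∫ y, K y = 1) ∧
    ∀ y, K y = ∫ t, cexp (((-2 * π * t * y : ℝ) : ℂ) * I) * χ t := by
  let b : ContDiffBump (0 : ℝ) := ⟨1 / 2, 1, by norm_num, by norm_num⟩
  have h1 : HasCompactSupport (fun t : ℝ => ((b t : ℝ) : ℂ)) :=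
    b.hasCompactSupport.comp_left (g := fun x : ℝ => (x : ℂ)) (by simp)
  have h2 : ContDiff ℝ ∞ (fun t : ℝ => ((b t : ℝ) : ℂ)) :=
    Complex.ofRealCLM.contDiff.comp b.contDiff
  let s : SchwartzMap ℝ ℂ := h1.toSchwartzMap h2
  have hs : (s : ℝ → ℂ) = fun t : ℝ => ((b t : ℝ) : ℂ) := rfl
  refine ⟨s, 𝓕 (s : ℝ → ℂ), s.integrable, ?_, ?_, (𝓕 s).integrable, ?_, ?_⟩
  · intro t
    rw [hs]
    simp only [Complex.norm_real, Real.norm_eq_abs]
    rw [abs_of_nonneg b.nonneg]
    exact b.le_one
  · intro t ht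
    rw [hs]
    have : b t = 0 := b.zero_of_le_dist (by simpa [b, Real.dist_eq] using ht.le)
    simp [this]
  · have h := congrFun (s.continuous.fourierInv_fourier_eq s.integrable (𝓕 s).integrable) 0
    rw [Real.fourierInv_eq'] at h
    simp only [inner_zero_right, mul_zero, ofReal_zero, zero_mul, Complex.exp_zero, one_smul] at h
    rw [h, hs]
    have : b 0 = 1 := b.one_of_mem_closedBall (by simp [b])
    simp [this]
  · intro y
    rw [Real.fourier_real_eq_integral_exp_smul]
    simp

/-- the elementary integral of a character over an interval -/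
noncomputable def Ech (a b t : ℝ) : ℂ := ∫ v in Ioc a b, cexp (((-2 * π * t * v : ℝ) : ℂ) * I)

theorem norm_Ech_le {a b t : ℝ} (hab : a ≤ b) (ht : t ≠ 0) : ‖Ech a b t‖ ≤ 1 / (π * |t|) := by
  unfold Ech
  rw [← intervalIntegral.integral_of_le hab]
  have hc : ((-2 * π * t : ℝ) : ℂ) * I ≠ 0 := by
    apply mul_ne_zero _ I_ne_zero
    have : (-2 * π * t : ℝ) ≠ 0 := by
      have := Real.pi_pos
      apply mul_ne_zero _ ht
      nlinarith
    exact_mod_cast this
  have h : ∀ v : ℝ, cexp (((-2 * π * t * v : ℝ) : ℂ) * I) =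
      cexp ((((-2 * π * t : ℝ) : ℂ) * I) * v) := by
    intro v; congr 1; push_cast; ring
  simp_rw [h]
  rw [integral_exp_mul_complex hc, norm_div]
  have hn : ∀ v : ℝ, ‖cexp ((((-2 * π * t : ℝ) : ℂ) * I) * v)‖ = 1 := by
    intro v; rw [← h]; exact Complex.norm_exp_ofReal_mul_I _
  have hd : ‖((-2 * π * t : ℝ) : ℂ) * I‖ = 2 * (π * |t|) := by
    rw [norm_mul, Complex.norm_I, mul_one, Complex.norm_real, Real.norm_eq_abs, abs_mul, abs_mul,
      abs_of_pos Real.pi_pos]
    norm_num; ring
  rw [hd]
  have hpos : 0 < π * |t| := mul_pos Real.pi_pos (abs_pos.mpr ht)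
  rw [div_le_div_iff₀ (by positivity) hpos]
  have := norm_sub_le (cexp ((((-2 * π * t : ℝ) : ℂ) * I) * b))
    (cexp ((((-2 * π * t : ℝ) : ℂ) * I) * a))
  rw [hn, hn] at this
  nlinarith

theorem norm_Ech_le' {a b : ℝ} (hab : a ≤ b) (t : ℝ) : ‖Ech a b t‖ ≤ b - a := by
  unfold Ech
  have := norm_setIntegral_le_of_norm_le_const (μ := volume) (s := Ioc a b) (C := 1)
    (f := fun v : ℝ => cexp (((-2 * π * t * v : ℝ) : ℂ) * I)) (by simp)
    (fun v _ => (Complex.norm_exp_ofReal_mul_I _).le)
  simpa [hab] using this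

theorem measurable_Ech (a b : ℝ) : StronglyMeasurable (Ech a b) := by
  unfold Ech
  apply StronglyMeasurable.integral_prod_right
    (f := fun t v : ℝ => cexp (((-2 * π * t * v : ℝ) : ℂ) * I))
  apply Continuous.stronglyMeasurable
  unfold Function.uncurry
  fun_prop

theorem inner_int {χ K : ℝ → ℂ} (hχ : Integrable χ)
    (hK : ∀ y, K y = ∫ t, cexp (((-2 * π * t * y : ℝ) : ℂ) * I) * χ t) {a b : ℝ} (hab : a ≤ b)
    (c : ℝ) :
    ∫ y in Ioc (a - c) (b - c), K y =
      ∫ t, χ t * cexp (((2 * π * t * c : ℝ) : ℂ) * I) * Ech a b t := by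
  have h1 : ∫ y in Ioc (a - c) (b - c), K y = ∫ v in Ioc a b, K (v - c) := by
    rw [← intervalIntegral.integral_of_le hab, ← intervalIntegral.integral_of_le (by linarith),
      intervalIntegral.integral_comp_sub_right]
  rw [h1]
  simp_rw [hK]
  rw [integral_integral_swap]
  · refine integral_congr_ae (Eventually.of_forall fun t => ?_)
    simp only [Ech]
    rw [← integral_const_mul]
    refine integral_congr_ae (Eventually.of_forall fun v => ?_)
    simp only
    rw [mul_assoc (χ t), ← Complex.exp_add, mul_comm _ (χ t)]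
    congr 2
    push_cast; ring
  · have hi : Integrable (fun p : ℝ × ℝ => (1 : ℂ) * χ p.2)
        ((volume.restrict (Ioc a b)).prod volume) :=
      Integrable.mul_prod (f := fun _ => (1 : ℂ)) (by simp) hχ
    refine hi.mono ?_ (Eventually.of_forall fun p => ?_)
    · apply AEStronglyMeasurable.mul
      · apply Continuous.aestronglyMeasurable
        fun_prop
      · exact hχ.aestronglyMeasurable.comp_snd
    · simp only [Function.uncurry, norm_mul, Complex.norm_exp_ofReal_mul_I, norm_one, le_refl]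

theorem conv_identity {χ K : ℝ → ℂ} (hχ : Integrable χ) (hKi : Integrable K)
    (hK : ∀ y, K y = ∫ t, cexp (((-2 * π * t * y : ℝ) : ℂ) * I) * χ t)
    (ρ : Measure ℝ) [SFinite ρ] {h : ℝ → ℂ} (hh : Integrable h ρ) {R : ℝ} (hR : 0 < R)
    {x' x : ℝ} (hx : x' ≤ x) :
    ∫ y, ((∫ s in Iic (x - y / R), h s ∂ρ) - ∫ s in Iic (x' - y / R), h s ∂ρ) * K y =
      ∫ t, χ t * (∫ s, cexp (((2 * π * R * t * s : ℝ) : ℂ) * I) * h s ∂ρ) *
        Ech (R * x') (R * x) t := by
  have hab : R * x' ≤ R * x := mul_le_mul_of_nonneg_left hx hR.le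
  let S : Set (ℝ × ℝ) := {p | R * x' - R * p.2 < p.1 ∧ p.1 ≤ R * x - R * p.2}
  have hS : MeasurableSet S := by
    have m1 : MeasurableSet {p : ℝ × ℝ | R * x' - R * p.2 < p.1} :=
      measurableSet_lt (by fun_prop) (by fun_prop)
    have m2 : MeasurableSet {p : ℝ × ℝ | p.1 ≤ R * x - R * p.2} :=
      measurableSet_le (by fun_prop) (by fun_prop)
    exact m1.inter m2
  have e1 : ∀ y, ((∫ s in Iic (x - y / R), h s ∂ρ) - ∫ s in Iic (x' - y / R), h s ∂ρ) * K y =
      ∫ s, S.indicator (fun p : ℝ × ℝ => K p.1 * h p.2) (y, s) ∂ρ := by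
    intro y
    have hle : x' - y / R ≤ x - y / R := by linarith
    rw [intervalIntegral.integral_Iic_sub_Iic hh.integrableOn hh.integrableOn,
      intervalIntegral.integral_of_le hle, mul_comm, ← integral_const_mul,
      ← integral_indicator measurableSet_Ioc]
    refine integral_congr_ae (Eventually.of_forall fun s => ?_)
    have : (s ∈ Ioc (x' - y / R) (x - y / R)) ↔ (y, s) ∈ S := by
      simp only [S, mem_Ioc, mem_ofPred_eq]
      rw [sub_lt_comm, le_sub_comm, lt_div_iff₀ hR, div_le_iff₀ hR]
      constructor <;> rintro ⟨h1, h2⟩ <;> constructor <;> nlinarith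
    by_cases hs : s ∈ Ioc (x' - y / R) (x - y / R)
    · simp only [indicator_of_mem hs, indicator_of_mem (this.mp hs)]
    · simp only [indicator_of_notMem hs, indicator_of_notMem (fun h => hs (this.mpr h))]
  simp_rw [e1]
  rw [integral_integral_swap]
  · have e2 : ∀ s, ∫ y, S.indicator (fun p : ℝ × ℝ => K p.1 * h p.2) (y, s) =
        ∫ t, χ t * (cexp (((2 * π * R * t * s : ℝ) : ℂ) * I) * h s) * Ech (R * x') (R * x) t := by
      intro s
      have : ∀ y, S.indicator (fun p : ℝ × ℝ => K p.1 * h p.2) (y, s) =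
          (Ioc (R * x' - R * s) (R * x - R * s)).indicator K y * h s := by
        intro y
        by_cases hy : y ∈ Ioc (R * x' - R * s) (R * x - R * s)
        · have : (y, s) ∈ S := hy
          simp only [indicator_of_mem hy, indicator_of_mem this]
        · have : (y, s) ∉ S := hy
          simp only [indicator_of_notMem hy, indicator_of_notMem this, zero_mul]
      simp_rw [this]
      rw [integral_mul_const, integral_indicator measurableSet_Ioc, inner_int hχ hK hab,
        ← integral_mul_const]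
      refine integral_congr_ae (Eventually.of_forall fun t => ?_)
      simp only
      have : ((2 * π * t * (R * s) : ℝ) : ℂ) = ((2 * π * R * t * s : ℝ) : ℂ) := by
        push_cast; ring
      rw [this]; ring
    simp_rw [e2]
    rw [integral_integral_swap]
    · refine integral_congr_ae (Eventually.of_forall fun t => ?_)
      simp only
      rw [integral_mul_const, integral_const_mul]
    · have hi : Integrable (fun p : ℝ × ℝ => h p.1 * (χ p.2 * ((R * x - R * x' : ℝ) : ℂ)))
          (ρ.prod volume) :=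
        Integrable.mul_prod hh (hχ.mul_const _)
      refine hi.mono ?_ (Eventually.of_forall fun p => ?_)
      · apply AEStronglyMeasurable.mul
        · apply AEStronglyMeasurable.mul
          · exact hχ.aestronglyMeasurable.comp_snd
          · apply AEStronglyMeasurable.mul
            · apply Continuous.aestronglyMeasurable
              fun_prop
            · exact hh.aestronglyMeasurable.comp_fst
        · exact (measurable_Ech _ _).aestronglyMeasurable.comp_snd
      · simp only [Function.uncurry, norm_mul, Complex.norm_exp_ofReal_mul_I, one_mul,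
          Complex.norm_real, Real.norm_eq_abs]
        rw [abs_of_nonneg (by linarith)]
        have := norm_Ech_le' hab p.2
        have h1 := norm_nonneg (χ p.2)
        have h2 := norm_nonneg (h p.1)
        calc ‖χ p.2‖ * ‖h p.1‖ * ‖Ech (R * x') (R * x) p.2‖
            ≤ ‖χ p.2‖ * ‖h p.1‖ * (R * x - R * x') :=
              mul_le_mul_of_nonneg_left this (by positivity)
          _ = _ := by ring
  · exact (Integrable.mul_prod hKi hh).indicator hS

end Pool.Agent.Lib.MP_8414c7_pr
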