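import Mathlib

set_option autoImplicit false

open MeasureTheory Set Filter Topology
open scoped Real ContDiff

namespace Pool.Agent.Lib.MP_8414c7_pr

theorem riemann {φ : ℝ → ℝ} {Λ : ℝ} (hc : Continuous φ) (hφ : ∀ x y, |φ x - φ y| ≤ Λ * |x - y|)
    {N : ℕ} (hN : 0 < N) :
    |∑ n ∈ Finset.range N, φ (n / N) - N * ∫ x in (0 : ℝ)..1, φ x| ≤ Λ := by
  have N0 : (0 : ℝ) < N := by exact_mod_cast hN
  have hΛ : 0 ≤ Λ := by
    have := (abs_nonneg _).trans (hφ 1 0)
    simpa using this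
  have h := intervalIntegral.sum_integral_adjacent_intervals (μ := volume) (f := φ)
    (a := fun k : ℕ => (k : ℝ) / N) (n := N) (fun k _ => hc.intervalIntegrable _ _)
  simp only [Nat.cast_zero, zero_div, div_self N0.ne'] at h
  rw [← h, Finset.mul_sum, ← Finset.sum_sub_distrib]
  refine (Finset.abs_sum_le_sum_abs _ _).trans ?_
  calc _ ≤ ∑ _n ∈ Finset.range N, Λ / N := by
        refine Finset.sum_le_sum fun n _ => ?_
        have hd : ((n + 1 : ℕ) : ℝ) / N - (n : ℝ) / N = 1 / N := by push_cast; ring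
        have e : φ (n / N) - N * ∫ x in (n : ℝ) / N..((n + 1 : ℕ) : ℝ) / N, φ x =
            N * ∫ x in (n : ℝ) / N..((n + 1 : ℕ) : ℝ) / N, (φ (n / N) - φ x) := by
          rw [intervalIntegral.integral_sub (by simp) (hc.intervalIntegrable _ _),
            intervalIntegral.integral_const, hd]
          simp only [smul_eq_mul]; field_simp
        rw [e, abs_mul, abs_of_pos N0]
        have hle : (n : ℝ) / N ≤ ((n + 1 : ℕ) : ℝ) / N := by
          have : 0 < 1 / (N : ℝ) := by positivity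
          linarith
        have := intervalIntegral.norm_integral_le_of_norm_le_const (a := (n : ℝ) / N)
          (b := ((n + 1 : ℕ) : ℝ) / N) (C := Λ * (1 / N)) (f := fun x => φ (n / N) - φ x)
          (fun x hx => by
            rw [uIoc_of_le hle] at hx
            refine (hφ _ _).trans (mul_le_mul_of_nonneg_left ?_ hΛ)
            rw [abs_le]; constructor <;> linarith [hx.1, hx.2])
        rw [hd, Real.norm_eq_abs, abs_of_pos (by positivity : 0 < 1 / (N : ℝ))] at this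
        calc _ ≤ N * (Λ * (1 / N) * (1 / N)) := by gcongr
          _ = _ := by field_simp
    _ = Λ := by simp; field_simp

theorem exists_amp : ∃ (a : ℝ → ℝ) (κ Λ x₁ : ℝ), ContDiff ℝ ∞ a ∧ (∀ x, 0 ≤ a x) ∧
    (∀ x, a x ≤ κ) ∧ 0 < κ ∧ 0 < Λ ∧ (∀ x, |deriv a x| ≤ Λ) ∧ (∀ x, x ≤ 0 ∨ 1 ≤ x → a x = 0) ∧
    0 ≤ x₁ ∧ x₁ ≤ 1 ∧ a x₁ = κ ∧ (∫ x in (0 : ℝ)..1, a x ^ 2 = 1) ∧
    (∫ x in (0 : ℝ)..1, a x ^ 4 = 3) := by
  let b : ContDiffBump (1 / 2 : ℝ) := ⟨1 / 4, 1 / 2, by norm_num, by norm_num⟩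
  have bz : ∀ x, x ≤ 0 ∨ 1 ≤ x → b x = 0 := by
    intro x hx
    apply b.zero_of_le_dist
    simp only [b, Real.dist_eq]
    rcases hx with hx | hx
    · rw [abs_of_nonpos (by linarith)]; linarith
    · rw [abs_of_nonneg (by linarith)]; linarith
  have bo : ∀ x, 1 / 4 ≤ x → x ≤ 3 / 4 → b x = 1 := by
    intro x h1 h2
    apply b.one_of_mem_closedBall
    simp only [b, Metric.mem_closedBall, Real.dist_eq]
    rw [abs_le]; constructor <;> linarith
  have bc : Continuous b := b.continuous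
  have low : ∀ k : ℕ, 1 / 2 ≤ ∫ x in (0 : ℝ)..1, b x ^ k := by
    intro k
    have h1 : ∫ x in (1 / 4 : ℝ)..(3 / 4), b x ^ k = 1 / 2 := by
      rw [intervalIntegral.integral_congr (g := fun _ => (1 : ℝ))]
      · simp; norm_num
      · intro x hx
        rw [uIcc_of_le (by norm_num)] at hx
        simp [bo x hx.1 hx.2]
    refine h1.ge.trans ?_
    exact intervalIntegral.integral_mono_interval (by norm_num) (by norm_num) (by norm_num)
      (Eventually.of_forall fun x => pow_nonneg b.nonneg k) ((bc.pow k).intervalIntegrable _ _)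
  set I2 := ∫ x in (0 : ℝ)..1, b x ^ 2 with hI2
  set I4 := ∫ x in (0 : ℝ)..1, b x ^ 4 with hI4
  have l2 : 1 / 2 ≤ I2 := low 2
  have l4 : 1 / 2 ≤ I4 := low 4
  have l42 : I4 ≤ I2 :=
    intervalIntegral.integral_mono_on (by norm_num) ((bc.pow 4).intervalIntegrable _ _)
      ((bc.pow 2).intervalIntegrable _ _)
      (fun x _ => pow_le_pow_of_le_one b.nonneg b.le_one (by norm_num))
  set l := 3 * I2 ^ 2 / I4 with hl
  have l1 : 1 ≤ l := by
    rw [hl, le_div_iff₀ (by linarith)]; nlinarith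
  have l0 : 0 < l := by linarith
  set κ := √(l / I2) with hκ
  have κ0 : 0 < κ := Real.sqrt_pos.2 (by positivity)
  have κ2 : κ ^ 2 = l / I2 := Real.sq_sqrt (by positivity)
  have sc : ∀ k : ℕ, k ≠ 0 → ∫ x in (0 : ℝ)..1, b (l * x) ^ k = l⁻¹ * ∫ x in (0 : ℝ)..1, b x ^ k := by
    intro k hk
    rw [intervalIntegral.integral_comp_mul_left (fun x => b x ^ k) l0.ne', mul_zero, mul_one,
      smul_eq_mul, ← intervalIntegral.integral_add_adjacent_intervals (b := 1) (f := fun x => b x ^ k)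
        ((bc.pow k).intervalIntegrable _ _) ((bc.pow k).intervalIntegrable _ _)]
    have : ∫ x in (1 : ℝ)..l, b x ^ k = 0 := by
      rw [intervalIntegral.integral_congr (g := fun _ => (0 : ℝ))]
      · simp
      · intro x hx
        rw [uIcc_of_le l1] at hx
        simp [bz x (Or.inr hx.1), hk]
    rw [this, add_zero]
  let a : ℝ → ℝ := fun x => κ * b (l * x)
  have ha : ContDiff ℝ ∞ a := contDiff_const.mul (b.contDiff.comp (contDiff_const.mul contDiff_id))
  have az : ∀ x, x ≤ 0 ∨ 1 ≤ x → a x = 0 := by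
    intro x hx
    simp only [a]
    rw [bz, mul_zero]
    rcases hx with hx | hx
    · left; exact mul_nonpos_of_nonneg_of_nonpos l0.le hx
    · right; nlinarith
  have hcs : HasCompactSupport a := by
    apply HasCompactSupport.intro (K := Icc 0 1) isCompact_Icc
    intro x hx
    apply az
    simp only [mem_Icc, not_and_or, not_le] at hx
    exact hx.imp le_of_lt le_of_lt
  obtain ⟨Λ, hΛ⟩ := (ha.continuous_deriv (by simp)).bounded_above_of_compact_support hcs.deriv
  refine ⟨a, κ, |Λ| + 1, 1 / (2 * l), ha, fun x => mul_nonneg κ0.le b.nonneg,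
    fun x => mul_le_of_le_one_right κ0.le b.le_one, κ0, by positivity,
    fun x => (hΛ x).trans (by linarith [le_abs_self Λ]), az, by positivity, ?_, ?_, ?_, ?_⟩
  · rw [div_le_one (by positivity)]; linarith
  · simp only [a]
    rw [show l * (1 / (2 * l)) = 1 / 2 by field_simp, bo _ (by norm_num) (by norm_num), mul_one]
  · simp only [a, mul_pow]
    rw [intervalIntegral.integral_const_mul, sc 2 (by norm_num), κ2, ← hI2]
    field_simp
  · simp only [a, mul_pow]
    rw [intervalIntegral.integral_const_mul, sc 4 (by norm_num), show κ ^ 4 = (κ ^ 2) ^ 2 by ring,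
      κ2, ← hI4]
    have : I4 ≠ 0 := by linarith
    have : I2 ≠ 0 := by linarith
    rw [hl]; field_simp

theorem spread {a : ℝ → ℝ} {κ Λ x₁ : ℝ} (ha : ContDiff ℝ ∞ a) (Λ0 : 0 < Λ)
    (hΛ : ∀ x, |deriv a x| ≤ Λ) (a0 : a 0 = 0) (h0 : 0 ≤ x₁) (h1 : x₁ ≤ 1) (hx : a x₁ = κ)
    {u : ℝ} (hu : π ≤ |u| * κ) :
    κ / (2 * Λ) ≤ ∫ x in (0 : ℝ)..1, (1 - Real.cos (u * a x)) := by
  have ac : Continuous a := ha.continuous
  have dc : Continuous (deriv a) := ha.continuous_deriv (by simp)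
  have ad : ∀ x, HasDerivAt a (deriv a x) x := fun x =>
    (ha.differentiable (by simp) x).hasDerivAt
  have u0 : 0 < |u| := by
    by_contra hc
    have : |u| = 0 := le_antisymm (not_lt.1 hc) (abs_nonneg u)
    rw [this] at hu; linarith [Real.pi_pos]
  have u0' : u ≠ 0 := abs_pos.1 u0
  have c1 : Continuous fun x => 1 - Real.cos (u * a x) := by fun_prop
  have n1 : ∀ x, 0 ≤ 1 - Real.cos (u * a x) := fun x => sub_nonneg.2 (Real.cos_le_one _)
  have hd : ∀ x, HasDerivAt (fun x => a x - Real.sin (u * a x) / u)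
      ((1 - Real.cos (u * a x)) * deriv a x) x := by
    intro x
    have := (ad x).sub ((((ad x).const_mul u).sin).div_const u)
    exact this.congr_deriv (by field_simp)
  have e := intervalIntegral.integral_eq_sub_of_hasDerivAt (a := 0) (b := x₁) (fun x _ => hd x)
    ((c1.mul dc).intervalIntegrable _ _)
  simp only [a0, hx, mul_zero, Real.sin_zero, zero_div, sub_zero] at e
  have s1 : Real.sin (u * κ) / u ≤ κ / 2 := by
    refine (le_abs_self _).trans ?_
    rw [abs_div, div_le_iff₀ u0]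
    have := Real.abs_sin_le_one (u * κ)
    nlinarith [Real.pi_gt_three]
  have m1 : ∫ x in (0 : ℝ)..x₁, (1 - Real.cos (u * a x)) * deriv a x ≤
      ∫ x in (0 : ℝ)..x₁, Λ * (1 - Real.cos (u * a x)) := by
    refine intervalIntegral.integral_mono_on h0 ((c1.mul dc).intervalIntegrable _ _)
      ((continuous_const.mul c1).intervalIntegrable _ _) fun x _ => ?_
    rw [mul_comm]
    exact mul_le_mul_of_nonneg_right ((le_abs_self _).trans (hΛ x)) (n1 x)
  rw [intervalIntegral.integral_const_mul] at m1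
  have m2 : ∫ x in (0 : ℝ)..x₁, (1 - Real.cos (u * a x)) ≤
      ∫ x in (0 : ℝ)..1, (1 - Real.cos (u * a x)) :=
    intervalIntegral.integral_mono_interval le_rfl h0 h1 (Eventually.of_forall n1)
      (c1.intervalIntegrable _ _)
  rw [div_le_iff₀ (by positivity)]
  nlinarith

theorem exists_weight : ∃ w : ℝ → ℝ, ContDiff ℝ ∞ w ∧ (∀ x, x ≤ 0 ∨ 1 ≤ x → w x = 0) ∧
    (∀ x, 0 ≤ w x) ∧ (∫ x in (0 : ℝ)..1, w x = 1) ∧
    ∃ M L c₀ c₁ δ₀ : ℝ, 1 ≤ M ∧ 0 ≤ L ∧ 0 < c₀ ∧ 0 < c₁ ∧ 0 < δ₀ ∧ δ₀ ≤ 1 ∧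
      ∀ (N : ℕ) (A : ℝ) (θ : ℕ → ℝ), A = ∑ n ∈ Finset.range N, w (n / N) →
        (∀ n, θ n = 1 / √A * √(w (n / N))) → δ₀⁻¹ ≤ √N →
        (∑ i ∈ Finset.Ico 1 N, θ i ^ 2 = 1) ∧ (∀ i ∈ Finset.Ico 1 N, |θ i| ≤ M / √N) ∧
        |(∑ i ∈ Finset.Ico 1 N, θ i ^ 4) - 3 / √N ^ 2| ≤ L / √N ^ 4 ∧
        (∀ v : ℝ, |v| ≤ c₁ * √N ^ 3 →
          c₀ * min (v ^ 2) (√N ^ 2) ≤ ∑ i ∈ Finset.Ico 1 N, (1 - Real.cos (θ i * v))) := by
  obtain ⟨a, κ, Λ, x₁, ha, a0, aκ, κ0, Λ0, hΛ, az, x0, x1, ax, i2, i4⟩ := exists_amp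
  have ac : Continuous a := ha.continuous
  have lip : ∀ x y, |a x - a y| ≤ Λ * |x - y| := by
    intro x y
    have := (lipschitzWith_of_nnnorm_deriv_le (C := ⟨Λ, Λ0.le⟩) (ha.differentiable (by simp))
      (fun x => hΛ x)).dist_le_mul x y
    exact this
  have lip2 : ∀ x y, |a x ^ 2 - a y ^ 2| ≤ 2 * κ * Λ * |x - y| := by
    intro x y
    rw [show a x ^ 2 - a y ^ 2 = (a x + a y) * (a x - a y) by ring, abs_mul,
      abs_of_nonneg (add_nonneg (a0 x) (a0 y))]
    have := aκ x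
    have := aκ y
    have := lip x y
    calc _ ≤ (2 * κ) * (Λ * |x - y|) := by gcongr; linarith
      _ = _ := by ring
  have lip4 : ∀ x y, |a x ^ 4 - a y ^ 4| ≤ 4 * κ ^ 3 * Λ * |x - y| := by
    intro x y
    rw [show a x ^ 4 - a y ^ 4 = (a x ^ 2 + a y ^ 2) * (a x ^ 2 - a y ^ 2) by ring, abs_mul,
      abs_of_nonneg (by positivity)]
    have h1 : a x ^ 2 ≤ κ ^ 2 := by have := aκ x; have := a0 x; gcongr
    have h2 : a y ^ 2 ≤ κ ^ 2 := by have := aκ y; have := a0 y; gcongr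
    have := lip2 x y
    calc _ ≤ (2 * κ ^ 2) * (2 * κ * Λ * |x - y|) := by gcongr; linarith
      _ = _ := by ring
  refine ⟨fun x => a x ^ 2, ha.pow 2, fun x hx => by simp [az x hx], fun x => by positivity, i2,
    1 + 2 * κ, 4 * (4 * κ ^ 3 * Λ + 8 * (2 * κ * Λ)), min (2 / π ^ 2) (κ / (4 * Λ)),
    κ / (8 * Λ ^ 2), (1 + 4 * κ * Λ)⁻¹, by linarith, by positivity, by positivity, by positivity,
    by positivity, inv_le_one_of_one_le₀ (by nlinarith [mul_pos κ0 Λ0]), ?_⟩
  intro N A θ hA hθ hN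
  rw [inv_inv] at hN
  have κΛ := mul_pos κ0 Λ0
  have q1 : 1 ≤ √(N : ℝ) := by nlinarith
  have q2 : √(N : ℝ) ^ 2 = N := Real.sq_sqrt (by positivity)
  have N1 : 1 + 4 * κ * Λ ≤ (N : ℝ) := by nlinarith
  have N0' : (0 : ℝ) < N := by nlinarith
  have N0 : 0 < N := by exact_mod_cast N0'
  have r2 := riemann (ac.pow 2) lip2 N0
  have r4 := riemann (ac.pow 4) lip4 N0
  simp only [Pi.pow_apply] at r2 r4
  rw [i2, ← hA] at r2
  rw [i4] at r4
  have A1 : (N : ℝ) / 2 ≤ A := by have := (abs_le.1 r2).1; linarith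
  have A0 : 0 < A := by linarith
  have sA : √A ^ 2 = A := Real.sq_sqrt A0.le
  have sA0 : 0 < √A := Real.sqrt_pos.2 A0
  have sA1 : √(N : ℝ) ≤ 2 * √A := by
    refine (pow_le_pow_iff_left₀ (n := 2) (by positivity) (by positivity) (by norm_num)).1 ?_
    nlinarith
  have θe : ∀ n, θ n = a (n / N) / √A := by
    intro n; rw [hθ, Real.sqrt_sq (a0 _)]; ring
  have split : ∀ f : ℕ → ℝ, f 0 = 0 → ∑ i ∈ Finset.Ico 1 N, f i = ∑ i ∈ Finset.range N, f i := by
    intro f hf
    rw [Finset.range_eq_Ico, Finset.sum_eq_sum_Ico_succ_bot N0, hf, zero_add]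
  have θ0 : θ 0 = 0 := by rw [θe]; simp [az 0 (Or.inl le_rfl)]
  have s2 : ∑ i ∈ Finset.range N, θ i ^ 2 = 1 := by
    simp_rw [θe, div_pow, sA]
    rw [← Finset.sum_div, ← hA, div_self A0.ne']
  refine ⟨?_, ?_, ?_, ?_⟩
  · rw [split _ (by simp [θ0]), s2]
  · intro i _
    rw [θe, abs_of_nonneg (div_nonneg (a0 _) sA0.le), div_le_div_iff₀ sA0 (by linarith)]
    have := aκ (i / N)
    have := a0 (i / N)
    calc _ ≤ κ * (2 * √A) := by gcongr
      _ ≤ _ := by nlinarith
  · rw [split _ (by simp [θ0]), show √(N : ℝ) ^ 4 = (√(N : ℝ) ^ 2) ^ 2 by ring, q2]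
    simp_rw [θe, div_pow, show √A ^ 4 = (√A ^ 2) ^ 2 by ring, sA]
    rw [← Finset.sum_div]
    set B := ∑ i ∈ Finset.range N, a (i / N) ^ 4 with hB
    set e1 := B - N * 3 with he1
    set e2 := A - N * 1 with he2
    have e : B / A ^ 2 - 3 / N = (N * e1 - 6 * N * e2 - 3 * e2 ^ 2) / (N * A ^ 2) := by
      rw [he1, he2]; field_simp; ring
    rw [e, abs_div, abs_of_pos (by positivity : 0 < N * A ^ 2),
      div_le_div_iff₀ (by positivity) (by positivity)]
    have b1 : |N * e1 - 6 * N * e2 - 3 * e2 ^ 2| ≤ N * (4 * κ ^ 3 * Λ + 8 * (2 * κ * Λ)) := by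
      have c1 : |N * e1| ≤ N * (4 * κ ^ 3 * Λ) := by rw [abs_mul, abs_of_pos N0']; gcongr
      have c2 : |6 * N * e2| ≤ 6 * N * (2 * κ * Λ) := by
        rw [abs_mul, abs_of_pos (by positivity : (0 : ℝ) < 6 * N)]; gcongr
      have c3 : |3 * e2 ^ 2| ≤ 2 * N * (2 * κ * Λ) := by
        rw [abs_of_nonneg (by positivity), ← sq_abs]
        have := abs_nonneg e2
        have : |e2| ≤ N / 2 := by linarith
        have : |e2| * |e2| ≤ (N / 2) * (2 * κ * Λ) := by gcongr
        have : 0 ≤ N * (2 * κ * Λ) := by positivity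
        nlinarith
      have := abs_sub (N * e1 - 6 * N * e2) (3 * e2 ^ 2)
      have := abs_sub (N * e1) (6 * N * e2)
      linarith
    have b2 : (N : ℝ) ^ 2 ≤ 4 * A ^ 2 := by nlinarith
    calc _ ≤ N * (4 * κ ^ 3 * Λ + 8 * (2 * κ * Λ)) * (4 * A ^ 2) := by gcongr
      _ = _ := by ring
  · intro v hv
    rw [split _ (by simp [θ0]), q2]
    set u := v / √A with hu
    have θv : ∀ n : ℕ, θ n * v = u * a (n / N) := by intro n; rw [θe, hu]; ring
    have m0 : 0 ≤ min (v ^ 2) (N : ℝ) := le_min (by positivity) N0'.le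
    rcases le_total (|u| * κ) π with hc | hc
    · calc _ ≤ 2 / π ^ 2 * v ^ 2 :=
            mul_le_mul (min_le_left _ _) (min_le_left _ _) m0 (by positivity)
        _ = ∑ i ∈ Finset.range N, 2 / π ^ 2 * (θ i * v) ^ 2 := by
            simp_rw [mul_pow]
            rw [← Finset.mul_sum, ← Finset.sum_mul, s2, one_mul]
        _ ≤ _ := by
            refine Finset.sum_le_sum fun i _ => ?_
            have : |θ i * v| ≤ π := by
              rw [θv, abs_mul, abs_of_nonneg (a0 _)]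
              exact (mul_le_mul_of_nonneg_left (aκ _) (abs_nonneg u)).trans hc
            have := Real.cos_le_one_sub_mul_cos_sq this
            linarith
    · have sp := spread ha Λ0 hΛ (az 0 (Or.inl le_rfl)) x0 x1 ax hc
      have r := riemann (φ := fun x => 1 - Real.cos (u * a x)) (Λ := |u| * Λ) (by fun_prop)
        (fun x y => by
          rw [show 1 - Real.cos (u * a x) - (1 - Real.cos (u * a y)) =
            Real.cos (u * a y) - Real.cos (u * a x) by ring, abs_sub_comm]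
          refine (Real.abs_cos_sub_cos_le _ _).trans ?_
          rw [← mul_sub, abs_mul, mul_assoc]
          exact mul_le_mul_of_nonneg_left (lip x y) (abs_nonneg u)) N0
      simp_rw [θv]
      have r1 := (abs_le.1 r).1
      have u1 : |u| * Λ ≤ κ / (4 * Λ) * N := by
        rw [hu, abs_div, abs_of_pos sA0, div_mul_eq_mul_div, div_le_iff₀ sA0]
        calc |v| * Λ ≤ κ / (8 * Λ ^ 2) * √N ^ 3 * Λ := by gcongr
          _ = κ / (8 * Λ) * √N ^ 2 * √N := by field_simp
          _ ≤ κ / (8 * Λ) * √N ^ 2 * (2 * √A) := by gcongr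
          _ = _ := by rw [q2]; field_simp; ring
      have u2 : N * (κ / (2 * Λ)) ≤ N * ∫ x in (0 : ℝ)..1, (1 - Real.cos (u * a x)) := by gcongr
      have u3 : N * (κ / (2 * Λ)) = 2 * (κ / (4 * Λ) * N) := by field_simp; ring
      calc _ ≤ κ / (4 * Λ) * N :=
            mul_le_mul (min_le_right _ _) (min_le_right _ _) m0 (by positivity)
        _ ≤ _ := by linarith

end Pool.Agent.Lib.MP_8414c7_pr
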